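import Mathlib
import Pool.Agent.Q27.SZ3
import Pool.Agent.Q30.OS.Co1
import Pool.Agent.Q30.OS.Co2

/-!
# The Grand Lindelöf Hypothesis for `GL(m)` and the zeros of linear combinations of L-functions

`π` runs through the L-functions of cuspidal automorphic representations of `GL_m(𝔸_ℚ)` (`CuspidalL m`).
`FewZeros P Q F` says that, for every `δ > 0`, the function `F_x` has `o(log Q_x(y))` zeros to the right of
the line `Re s = 1/2 + δ` near the height `y`, uniformly in `x ∈ P`, as `Q_x(y) → ∞`.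

Theorem.  (1) Let `A` be an invertible `k × k` matrix and `b` a vector with `b_i + ∑_j A_ij ≠ 0` for all
`i`, and let `P` be any set of `k`-tuples `(π_1, …, π_k)`.  Then the joint Lindelöf hypothesis
`L(1/2 + it, π_j) ≪ D_π(t)^ε`, where `D_π(t)` is the product of the analytic conductors, holds if and only
if each of the `k` functions `b_i + ∑_j A_ij L(s, π_j)` has few zeros off the critical line.
(2) In particular for `a ≠ 1` the Grand Lindelöf Hypothesis on a set of `π` holds if and only if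
`L(s, π) = a` has few solutions off the line.  (3) For two numbers `w₁ ≠ w₂`, both different from `1`, the
Lindelöf hypothesis for pairs is equivalent to few coincidences `L(s, π) = w_i L(s, π')`, `i = 1, 2`.

In general the linear combinations have neither an Euler product nor a functional equation and have many
zeros off the critical line; the condition excludes only clusters of them.  Proof: Jensen's inequality, the
three circles theorem with few zeros (`Pool.Agent.W169.HF`, project of helper169, of the starting library)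
and the inversion of the matrix.
-/

set_option autoImplicit false

open Complex
open scoped ComplexConjugate

namespace Pool.Agent.Results.MP_52e316_nt.Coincidences

/-- Analytic data of a cuspidal automorphic representation of `GL_m(𝔸_ℚ)` (not the trivial one for
`m = 1`), normalised as in the problem: conductor `N`, archimedean parameters `μ_j` with `Re μ_j ≤ 1/2` and
`∑ Im μ_j = 0` (the central character is trivial on the positive reals), Satake parameters
`|α_j(p)| ≤ √p`, root number `ε`, and the entire completed L-function `Λ` (gamma factors times Euler product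
for `Re s > 3/2`) with the functional equation, finite order in vertical strips and no zeros in
`Re s > 1` (all known: Godement-Jacquet, Jacquet-Shalika). -/
structure CuspidalL (m : ℕ) where
  /-- the conductor -/
  N : ℝ
  /-- the archimedean parameters -/
  μ : Fin m → ℂ
  /-- the Satake parameters -/
  α : Fin m → ℕ → ℂ
  /-- the root number -/
  ε : ℂ
  /-- the completed L-function -/
  Λ : ℂ → ℂ
  one_le : 1 ≤ N
  re_le : ∀ j, (μ j).re ≤ 1 / 2
  normalised : ∑ j, (μ j).im = 0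
  norm_le : ∀ j, ∀ p : ℕ, p.Prime → ‖α j p‖ ≤ Real.sqrt p
  norm_eq : ‖ε‖ = 1
  entire : Differentiable ℂ Λ
  euler : ∀ s : ℂ, 3 / 2 < s.re → Λ s = (∏ j, Gammaℝ (s - μ j)) *
    ∏' p : Nat.Primes, ∏ j, (1 - α j p * (p : ℂ) ^ (-s))⁻¹
  fe : ∀ s : ℂ, Λ s = ε * (N : ℂ) ^ (1 / 2 - s) * conj (Λ (1 - conj s))
  bdd : ∀ a b : ℝ, ∃ M, ∀ s : ℂ, a ≤ s.re → s.re ≤ b → ‖Λ s‖ ≤ Real.exp (M * (1 + |s.im|))
  ne_zero : ∀ s : ℂ, 1 < s.re → Λ s ≠ 0

variable {m k : ℕ}

/-- The L-function `L(s, π) = Λ(s, π) / ∏ Γ_ℝ(s - μ_j)`. -/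
noncomputable def L (π : CuspidalL m) (s : ℂ) : ℂ := π.Λ s * ∏ j, (Gammaℝ (s - π.μ j))⁻¹

/-- The analytic conductor `C_π = N ∏ (1 + |μ_j|)`. -/
noncomputable def C (π : CuspidalL m) : ℝ := π.N * ∏ j, (1 + ‖π.μ j‖)

/-- The analytic conductor at the height `t`: `C_π(t) = N ∏ (1 + |i t - μ_j|)`. -/
noncomputable def Ct (π : CuspidalL m) (t : ℝ) : ℝ := π.N * ∏ j, (1 + ‖(t : ℂ) * I - π.μ j‖)

/-- The Grand Lindelöf Hypothesis for the `π` in `P`. -/
def GLH (P : CuspidalL m → Prop) : Prop :=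
  ∀ ε : ℝ, 0 < ε → ∃ B : ℝ, ∀ π : CuspidalL m, P π → ∀ t : ℝ,
    ‖L π (1 / 2 + (t : ℂ) * I)‖ ≤ B * ((1 + |t|) * C π) ^ ε

/-- The joint conductor of a tuple at the height `t`. -/
noncomputable def D (π : Fin k → CuspidalL m) (t : ℝ) : ℝ := ∏ j, Ct (π j) t

/-- The linear combinations `b_i + ∑_j A_ij L(s, π_j)`. -/
noncomputable def comb (b : Fin k → ℂ) (A : Matrix (Fin k) (Fin k) ℂ) (π : Fin k → CuspidalL m)
    (i : Fin k) (s : ℂ) : ℂ := b i + ∑ j, A i j * L (π j) s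

/-- The joint Lindelöf hypothesis for a set `P` of tuples: `L(1/2 + it, π_j) ≪ D_π(t)^ε` uniformly. -/
def JointLindelof (P : (Fin k → CuspidalL m) → Prop) : Prop :=
  ∀ ε : ℝ, 0 < ε → ∃ B : ℝ, ∀ π : Fin k → CuspidalL m, P π → ∀ (j : Fin k) (t : ℝ),
    ‖L (π j) (1 / 2 + (t : ℂ) * I)‖ ≤ B * D π t ^ ε

/-- `F_x` has `o(log Q_x(y))` zeros off the critical line near the height `y`, uniformly in `x ∈ P`, as
`Q_x(y) → ∞`: for all positive `δ`, `ε`, all `X`, and `Q_x(y)` large, any finitely many zeros `z` of `F_x`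
with `|Im z - y| ≤ 1` and `1/2 + δ ≤ Re z ≤ X` have total multiplicity at most `ε log Q_x(y)`. -/
def FewZeros {T : Type} (P : T → Prop) (Q : T → ℝ → ℝ) (F : T → ℂ → ℂ) : Prop :=
  ∀ δ ε X : ℝ, 0 < δ → 0 < ε → ∃ C₀ : ℝ, ∀ x : T, P x → ∀ y : ℝ, C₀ ≤ Q x y →
    ∀ S : Finset ℂ, (∀ z ∈ S, F x z = 0 ∧ 1 / 2 + δ ≤ z.re ∧ z.re ≤ X ∧ |z.im - y| ≤ 1) →
    ∑ z ∈ S, (analyticOrderNatAt (F x) z : ℝ) ≤ ε * Real.log (Q x y)

open Pool.Agent.W169.HF Pool.Agent.Q27.SZ Pool.Agent.Q30.OS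

lemma std (π : CuspidalL m) : Std π.N π.μ π.α π.ε π.Λ :=
  ⟨{ one_le := π.one_le
     re_le := π.re_le
     norm_le := fun j p hp => by
       rw [← Real.sqrt_eq_rpow]
       exact π.norm_le j p hp
     norm_eq := π.norm_eq
     entire := π.entire
     euler := fun s hs => π.euler s (by linarith)
     fe := π.fe
     bdd := π.bdd }, π.ne_zero⟩

lemma rpow_exp {x : ℝ} (hx : 1 ≤ x) (a : ℝ) : x ^ a = Real.exp (a * Real.log x) := by
  rw [Real.rpow_def_of_pos (by linarith), mul_comm]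

lemma Ct_one (π : CuspidalL m) (t : ℝ) : 1 ≤ Ct π t := cnd_pos π.one_le π.μ t

lemma D_one (π : Fin k → CuspidalL m) (t : ℝ) : 1 ≤ D π t := by
  refine Finset.prod_induction _ (fun x => (1 : ℝ) ≤ x) (fun a b ha hb => ?_) le_rfl fun j _ => Ct_one _ _
  nlinarith

lemma log_D (π : Fin k → CuspidalL m) (t : ℝ) : Real.log (D π t) = ∑ j, Real.log (Ct (π j) t) :=
  Real.log_prod fun j _ => by linarith [Ct_one (π j) t]

lemma Ct_le_D (π : Fin k → CuspidalL m) (t : ℝ) (j : Fin k) : Real.log (Ct (π j) t) ≤ Real.log (D π t) := by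
  rw [log_D]
  exact Finset.single_le_sum (f := fun j => Real.log (Ct (π j) t))
    (fun i _ => Real.log_nonneg (Ct_one (π i) t)) (Finset.mem_univ j)

lemma D_shift (π : Fin k → CuspidalL m) {y y' R : ℝ} (h : |y' - y| ≤ |R|) :
    Real.log (D π y) ≤ Real.log (D π y') + k * (m * Real.log (1 + |R|)) := by
  rw [log_D, log_D]
  have h1 : ∑ j, Real.log (Ct (π j) y) ≤ ∑ j : Fin k, (Real.log (Ct (π j) y') + m * Real.log (1 + |R|)) :=
    Finset.sum_le_sum fun j _ => logm_shift (π j).one_le (π j).μ h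
  rw [Finset.sum_add_distrib, Finset.sum_const, Finset.card_univ, Fintype.card_fin, nsmul_eq_mul] at h1
  exact h1

lemma L_diff (π : CuspidalL m) : Differentiable ℂ (L π) := LL_diff π.entire

lemma comb_diff (b : Fin k → ℂ) (A : Matrix (Fin k) (Fin k) ℂ) (π : Fin k → CuspidalL m) (i : Fin k) :
    Differentiable ℂ (comb b A π i) := by
  unfold comb
  exact (Differentiable.fun_sum fun j _ => (L_diff (π j)).const_mul _).const_add _

/-- the sum of the absolute values of all coefficients -/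
noncomputable def Mx (b : Fin k → ℂ) (A : Matrix (Fin k) (Fin k) ℂ) : ℝ := 1 + ∑ i, (‖b i‖ + ∑ j, ‖A i j‖)

lemma Mx_one (b : Fin k → ℂ) (A : Matrix (Fin k) (Fin k) ℂ) : 1 ≤ Mx b A := by
  unfold Mx
  have : 0 ≤ ∑ i, (‖b i‖ + ∑ j, ‖A i j‖) := by positivity
  linarith

lemma Mx_row (b : Fin k → ℂ) (A : Matrix (Fin k) (Fin k) ℂ) (i : Fin k) :
    ‖b i‖ + ∑ j, ‖A i j‖ ≤ Mx b A := by
  unfold Mx
  have := Finset.single_le_sum (f := fun i => ‖b i‖ + ∑ j, ‖A i j‖)
    (fun i _ => by positivity) (Finset.mem_univ i)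
  linarith

lemma comb_le (b : Fin k → ℂ) (A : Matrix (Fin k) (Fin k) ℂ) (π : Fin k → CuspidalL m) (i : Fin k) {s : ℂ}
    {x : ℝ} (hx : 0 ≤ x) (h : ∀ j, ‖L (π j) s‖ ≤ Real.exp x) : ‖comb b A π i s‖ ≤ Mx b A * Real.exp x := by
  unfold comb
  have h1 : ‖b i + ∑ j, A i j * L (π j) s‖ ≤ ‖b i‖ + ∑ j, ‖A i j‖ * Real.exp x := by
    refine (norm_add_le _ _).trans (add_le_add le_rfl ?_)
    refine (norm_sum_le _ _).trans (Finset.sum_le_sum fun j _ => ?_)
    rw [norm_mul]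
    exact mul_le_mul_of_nonneg_left (h j) (norm_nonneg _)
  refine h1.trans ?_
  have h2 := Mx_row b A i
  have h3 : (1 : ℝ) ≤ Real.exp x := Real.one_le_exp hx
  calc ‖b i‖ + ∑ j, ‖A i j‖ * Real.exp x ≤ ‖b i‖ * Real.exp x + ∑ j, ‖A i j‖ * Real.exp x := by
        have := norm_nonneg (b i)
        nlinarith
    _ = (‖b i‖ + ∑ j, ‖A i j‖) * Real.exp x := by rw [← Finset.sum_mul, add_mul]
    _ ≤ _ := mul_le_mul_of_nonneg_right h2 (Real.exp_pos _).le

/-- a positive lower bound for the row sums -/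
lemma row_pos (b : Fin k → ℂ) (A : Matrix (Fin k) (Fin k) ℂ) (h : ∀ i, b i + ∑ j, A i j ≠ 0) :
    ∃ c : ℝ, 0 < c ∧ c ≤ 1 ∧ ∀ i, c ≤ ‖b i + ∑ j, A i j‖ := by
  classical
  rcases isEmpty_or_nonempty (Fin k) with he | hne
  · exact ⟨1, one_pos, le_rfl, fun i => (he.false i).elim⟩
  · obtain ⟨i0, h0⟩ := Finite.exists_min fun i => ‖b i + ∑ j, A i j‖
    refine ⟨min 1 ‖b i0 + ∑ j, A i0 j‖, lt_min one_pos (norm_pos_iff.2 (h i0)), min_le_left _ _,
      fun i => (min_le_right _ _).trans (h0 i)⟩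

lemma far_comb (b : Fin k → ℂ) (A : Matrix (Fin k) (Fin k) ℂ) (h : ∀ i, b i + ∑ j, A i j ≠ 0) :
    ∃ c σ : ℝ, 0 < c ∧ 4 ≤ σ ∧ ∀ (π : Fin k → CuspidalL m) (i : Fin k) (s : ℂ), σ ≤ s.re →
      c ≤ ‖comb b A π i s‖ ∧ ‖comb b A π i s‖ ≤ 2 * Mx b A := by
  obtain ⟨c, hc, hc1, hcb⟩ := row_pos b A h
  have hM := Mx_one b A
  obtain ⟨σ, hσ, H⟩ := far_right m (η := c / (2 * Mx b A)) (by positivity)
  refine ⟨c / 2, σ, by positivity, hσ, fun π i s hs => ?_⟩
  have h1 : ‖comb b A π i s - (b i + ∑ j, A i j)‖ ≤ c / 2 := by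
    have e : comb b A π i s - (b i + ∑ j, A i j) = ∑ j, A i j * (L (π j) s - 1) := by
      unfold comb
      rw [add_sub_add_left_eq_sub, ← Finset.sum_sub_distrib]
      exact Finset.sum_congr rfl fun j _ => by ring
    rw [e]
    refine (norm_sum_le _ _).trans ?_
    calc ∑ j, ‖A i j * (L (π j) s - 1)‖ ≤ ∑ j, ‖A i j‖ * (c / (2 * Mx b A)) := by
          refine Finset.sum_le_sum fun j _ => ?_
          rw [norm_mul]
          exact mul_le_mul_of_nonneg_left (H _ _ _ _ _ (std (π j)).1 s hs) (norm_nonneg _)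
      _ = (∑ j, ‖A i j‖) * (c / (2 * Mx b A)) := by rw [Finset.sum_mul]
      _ ≤ Mx b A * (c / (2 * Mx b A)) := by
          apply mul_le_mul_of_nonneg_right _ (by positivity)
          have := Mx_row b A i
          have := norm_nonneg (b i)
          linarith
      _ = c / 2 := by field_simp
  have h2 := hcb i
  have h3 : ‖b i + ∑ j, A i j‖ ≤ Mx b A := by
    refine (norm_add_le _ _).trans ?_
    have := norm_sum_le Finset.univ (A i)
    have := Mx_row b A i
    linarith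
  constructor
  · have := norm_sub_norm_le (b i + ∑ j, A i j) (b i + ∑ j, A i j - comb b A π i s)
    rw [sub_sub_cancel, norm_sub_rev] at this
    linarith
  · have := norm_sub_norm_le (comb b A π i s) (b i + ∑ j, A i j)
    linarith

/-- Lindelöf bounds give few zeros -/
theorem fwd (hm : 1 ≤ m) (b : Fin k → ℂ) (A : Matrix (Fin k) (Fin k) ℂ)
    (h : ∀ i, b i + ∑ j, A i j ≠ 0) (P : (Fin k → CuspidalL m) → Prop) (hP : JointLindelof P) (i : Fin k) :
    FewZeros P D fun π => comb b A π i := by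
  obtain ⟨c, σ, hc, hσ, HF⟩ := far_comb (m := m) b A h
  intro δ ε X hδ hε
  obtain ⟨κ, R1, hκ, hR1, HB⟩ := bd_few (R := max X 1) (δ := min δ 1) (ε := ε) (β := σ) (le_max_right _ _)
    (lt_min hδ one_pos) (min_le_right _ _) hε (by linarith)
  have hR11 : 1 ≤ R1 := (le_max_right _ _).trans hR1
  obtain ⟨κ1, Rc, ℓ0, hκ1, HC⟩ := conv_co m hm (κ := κ / 2) (X := R1) (by positivity) hR11
  obtain ⟨B, HL⟩ := hP (κ1 / 2) (by positivity)
  have hM := Mx_one b A
  obtain ⟨M, hMd⟩ : ∃ M : ℝ, M = Mx b A := ⟨_, rfl⟩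
  rw [← hMd] at hM
  obtain ⟨rr, hrr⟩ : ∃ rr : ℝ, rr = k * (m * Real.log (1 + |Rc|)) := ⟨_, rfl⟩
  have hrr0 : 0 ≤ rr := by
    rw [hrr]
    have := Real.log_nonneg (show 1 ≤ 1 + |Rc| by linarith [abs_nonneg Rc])
    positivity
  have hlogB : 0 ≤ Real.log (max B 1) := Real.log_nonneg (le_max_right _ _)
  have hlogM : 0 ≤ Real.log M := Real.log_nonneg hM
  obtain ⟨W, hW⟩ : ∃ W : ℝ, W = |ℓ0| + 1 + 2 * Real.log (max B 1) / κ1 + rr + 2 * Real.log M / κ +
    |Real.log c| / κ := ⟨_, rfl⟩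
  refine ⟨Real.exp W, ?_⟩
  intro π hπ y hy
  obtain ⟨ℓ, hℓd⟩ : ∃ ℓ : ℝ, ℓ = Real.log (D π y) := ⟨_, rfl⟩
  have hℓW : W ≤ ℓ := by
    have := Real.log_le_log (Real.exp_pos _) hy
    rwa [Real.log_exp, ← hℓd] at this
  have p1 : 0 ≤ 2 * Real.log (max B 1) / κ1 := by positivity
  have p2 : 0 ≤ 2 * Real.log M / κ := by positivity
  have p3 : 0 ≤ |Real.log c| / κ := by positivity
  have p4 := le_abs_self ℓ0
  have p5 := abs_nonneg ℓ0
  have hℓ0 : 0 < ℓ := by linarith
  have q1 : 2 * Real.log (max B 1) + rr * κ1 ≤ ℓ * κ1 := by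
    have : 2 * Real.log (max B 1) / κ1 ≤ ℓ - rr := by linarith
    rw [div_le_iff₀ hκ1] at this
    linarith
  have q2 : 2 * Real.log M ≤ ℓ * κ := by
    have : 2 * Real.log M / κ ≤ ℓ := by linarith
    rwa [div_le_iff₀ hκ] at this
  have q3 : |Real.log c| ≤ ℓ * κ := by
    have : |Real.log c| / κ ≤ ℓ := by linarith
    rwa [div_le_iff₀ hκ] at this
  have hLb : ∀ j : Fin k, ∀ u : ℂ, 0 ≤ u.re → u.re ≤ R1 → |u.im| ≤ R1 →
      ‖L (π j) (1 / 2 + (y : ℂ) * I + u)‖ ≤ Real.exp (κ / 2 * ℓ) := by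
    intro j
    refine HC _ _ _ _ _ (std (π j)).1 (π j).ne_zero y ℓ (by linarith) (by
      rw [hℓd]; exact Ct_le_D π y j) ?_
    intro v hv
    have h1 := HL π hπ j (y + v)
    refine h1.trans ?_
    rw [rpow_exp (D_one π _)]
    have h2 : B * Real.exp (κ1 / 2 * Real.log (D π (y + v))) ≤
        Real.exp (Real.log (max B 1)) * Real.exp (κ1 / 2 * Real.log (D π (y + v))) := by
      apply mul_le_mul_of_nonneg_right _ (Real.exp_pos _).le
      rw [Real.exp_log (lt_max_of_lt_right one_pos)]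
      exact le_max_left _ _
    refine h2.trans ?_
    rw [← Real.exp_add]
    apply Real.exp_le_exp.2
    have h3 := D_shift π (y := y + v) (y' := y) (R := Rc) (by
      rw [show y - (y + v) = -v by ring, abs_neg]
      exact hv.trans (le_abs_self Rc))
    rw [← hrr, ← hℓd] at h3
    have h4 := mul_le_mul_of_nonneg_left h3 (show (0 : ℝ) ≤ κ1 / 2 by positivity)
    linarith
  obtain ⟨F, hF⟩ : ∃ F : ℂ → ℂ, F = fun u => comb b A π i (1 / 2 + (y : ℂ) * I + u) := ⟨_, rfl⟩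
  have hFd : Differentiable ℂ F := by
    rw [hF]
    exact (comb_diff b A π i).comp (by fun_prop)
  have hlow : ∀ u : ℂ, σ ≤ u.re → c ≤ ‖F u‖ := fun u hu => by
    rw [hF]
    refine (HF π i _ ?_).1
    have : (1 / 2 + (y : ℂ) * I + u : ℂ).re = 1 / 2 + u.re := by simp
    rw [this]
    linarith
  have hne : ∃ u, F u ≠ 0 := by
    refine ⟨(σ : ℂ), fun h0 => ?_⟩
    have := hlow (σ : ℂ) (by simp)
    rw [h0, norm_zero] at this
    linarith
  have hcnt := HB ℓ F hℓ0 hFd (fun u a1 a2 a3 => by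
      rw [hF]
      refine (comb_le b A π i (by positivity) (fun j => hLb j u a1 a2 a3)).trans ?_
      rw [← hMd]
      have h3 : M ≤ Real.exp (κ / 2 * ℓ) := by
        rw [← Real.log_le_iff_le_exp (by linarith)]
        linarith
      calc M * Real.exp (κ / 2 * ℓ) ≤ Real.exp (κ / 2 * ℓ) * Real.exp (κ / 2 * ℓ) :=
            mul_le_mul_of_nonneg_right h3 (Real.exp_pos _).le
        _ = Real.exp (κ * ℓ) := by
            rw [← Real.exp_add]
            congr 1
            ring)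
    (fun u a1 a2 a3 => by
      refine le_trans ?_ (hlow u a1)
      have h4 : c = Real.exp (Real.log c) := (Real.exp_log hc).symm
      rw [h4]
      apply Real.exp_le_exp.2
      have := neg_abs_le (Real.log c)
      linarith) hne
  have hcb : ∃ u, comb b A π i u ≠ 0 := by
    obtain ⟨u, hu⟩ := hne
    rw [hF] at hu
    exact ⟨_, hu⟩
  have hfin : Cnt (comb b A π i) {z : ℂ | 1 / 2 + δ ≤ z.re ∧ z.re ≤ X ∧ |z.im - y| ≤ 1} (ε * ℓ) := by
    refine cnt_shift (comb_diff b A π i) hcb (1 / 2 + (y : ℂ) * I) (by rw [← hF]; exact hcnt) ?_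
    intro z hz _
    obtain ⟨z1, z2, z3⟩ := hz
    have e1 : (z - (1 / 2 + (y : ℂ) * I)).re = z.re - 1 / 2 := by simp
    have e2 : (z - (1 / 2 + (y : ℂ) * I)).im = z.im - y := by simp
    refine ⟨?_, ?_, ?_⟩
    · rw [e1]
      linarith [min_le_left δ 1]
    · rw [e1]
      linarith [le_max_left X 1]
    · rw [e2]
      exact z3.trans (le_max_right _ _)
  intro S hS
  rw [← hℓd]
  exact hfin S hS

/-- few zeros give Lindelöf bounds -/
theorem bwd (hm : 1 ≤ m) (b : Fin k → ℂ) (A : Matrix (Fin k) (Fin k) ℂ) (hA : IsUnit A.det)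
    (h : ∀ i, b i + ∑ j, A i j ≠ 0) (P : (Fin k → CuspidalL m) → Prop)
    (hP : ∀ i, FewZeros P D fun π => comb b A π i) : JointLindelof P := by
  classical
  obtain ⟨c, σ, hc, hσ, HF⟩ := far_comb (m := m) b A h
  intro κ hκ
  obtain ⟨r, hrd⟩ : ∃ r : ℝ, r = min (κ / 4) 1 := ⟨_, rfl⟩
  have hr : 0 < r := by rw [hrd]; exact lt_min (by positivity) one_pos
  have hrκ : r ≤ κ / 4 := by rw [hrd]; exact min_le_left _ _
  have hr1 : r ≤ 1 := by rw [hrd]; exact min_le_right _ _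
  obtain ⟨κ1, Rc, ℓ1, hκ1, HC⟩ := cen_co m hm hκ hr hr1 hrκ
  obtain ⟨κ2, R, hκ2, hR, HB⟩ := few_bd (A := 2) (β := σ) (ρ := r) (κ := κ1 / 2) (X := max Rc 1)
    (by norm_num) (by linarith) hr hr1 (by positivity) (le_max_right _ _)
  obtain ⟨J, hJ⟩ : ∃ J : ℕ, |R| + 1 ≤ J := exists_nat_ge _
  have hJ0 : (0 : ℝ) ≤ J := Nat.cast_nonneg J
  have hch : ∀ i : Fin k, ∃ C₀ : ℝ, ∀ π : Fin k → CuspidalL m, P π → ∀ y : ℝ, C₀ ≤ D π y →
      Cnt (comb b A π i) {z : ℂ | 1 / 2 + κ2 ≤ z.re ∧ z.re ≤ 1 / 2 + R ∧ |z.im - y| ≤ 1}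
        (κ2 / (2 * (2 * J + 1)) * Real.log (D π y)) := fun i => by
    obtain ⟨C₀, H⟩ := hP i κ2 (κ2 / (2 * (2 * J + 1))) (1 / 2 + R) hκ2 (by positivity)
    exact ⟨C₀, fun π hπ y hy S hS => H π hπ y hy S hS⟩
  choose Cf HCf using hch
  obtain ⟨C0, hC0⟩ : ∃ C0 : ℝ, ∀ i, Cf i ≤ C0 :=
    ⟨∑ i, |Cf i|, fun i => (le_abs_self _).trans
      (Finset.single_le_sum (f := fun i => |Cf i|) (fun i _ => abs_nonneg _) (Finset.mem_univ i))⟩
  obtain ⟨B1, hB1, HT⟩ := win_triv m hm R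
  obtain ⟨B2, hB2, HT0⟩ := win_triv m hm 0
  have hM := Mx_one b A
  obtain ⟨M, hMd⟩ : ∃ M : ℝ, M = Mx b A := ⟨_, rfl⟩
  have hlogM : 0 ≤ Real.log (2 * M) := Real.log_nonneg (by rw [hMd]; linarith)
  -- the inverse matrix
  obtain ⟨M', hM'd⟩ : ∃ M' : ℝ, M' = Mx b A⁻¹ := ⟨_, rfl⟩
  have hM' : 1 ≤ M' := by rw [hM'd]; exact Mx_one _ _
  have hlogM' : 0 ≤ Real.log (M' * (1 + M)) := Real.log_nonneg (by rw [hMd]; nlinarith)
  obtain ⟨rr, hrr⟩ : ∃ rr : ℝ, rr = k * (m * Real.log (1 + |(J : ℝ)|)) := ⟨_, rfl⟩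
  have hrr0 : 0 ≤ rr := by
    rw [hrr]
    have := Real.log_nonneg (show 1 ≤ 1 + |(J : ℝ)| by linarith [abs_nonneg (J : ℝ)])
    positivity
  obtain ⟨W, hW⟩ : ∃ W : ℝ, W = |ℓ1| + 1 + Real.log (2 * M) / κ2 + |Real.log c| / κ2 + rr +
    (B1 + Real.log (2 * M)) + 2 * Real.log (M' * (1 + M)) / κ1 + Real.log (max C0 1) := ⟨_, rfl⟩
  have hlogC : 0 ≤ Real.log (max C0 1) := Real.log_nonneg (le_max_right _ _)
  have p0 := abs_nonneg ℓ1
  have p0' := le_abs_self ℓ1
  have p1 : 0 ≤ Real.log (2 * M) / κ2 := by positivity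
  have p2 : 0 ≤ |Real.log c| / κ2 := by positivity
  have p3 : 0 ≤ 2 * Real.log (M' * (1 + M)) / κ1 := by positivity
  have hW0 : 0 ≤ W := by linarith
  refine ⟨Real.exp (B2 + W), fun π hπ j0 t => ?_⟩
  obtain ⟨ℓ, hℓd⟩ : ∃ ℓ : ℝ, ℓ = Real.log (D π t) := ⟨_, rfl⟩
  have hℓ00 : 0 ≤ ℓ := by rw [hℓd]; exact Real.log_nonneg (D_one π t)
  rw [rpow_exp (D_one π t), ← Real.exp_add, ← hℓd]
  by_cases hbig : ℓ < W
  · have h1 := HT0 _ _ _ _ _ (std (π j0)).1 t 0 (by simp) (by simp) (by simp)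
    rw [add_zero] at h1
    refine h1.trans (Real.exp_le_exp.2 ?_)
    have h2 := Ct_le_D π t j0
    rw [← hℓd] at h2
    change Real.log (cnd (π j0).N (π j0).μ t) ≤ ℓ at h2
    have h3 : 0 ≤ κ * ℓ := by positivity
    linarith
  push Not at hbig
  have hℓ0 : 0 < ℓ := by linarith
  have q1 : Real.log (2 * M) ≤ ℓ * κ2 := by
    have : Real.log (2 * M) / κ2 ≤ ℓ := by linarith
    rwa [div_le_iff₀ hκ2] at this
  have q2 : |Real.log c| ≤ ℓ * κ2 := by
    have : |Real.log c| / κ2 ≤ ℓ := by linarith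
    rwa [div_le_iff₀ hκ2] at this
  have q3 : 2 * Real.log (M' * (1 + M)) ≤ ℓ * κ1 := by
    have : 2 * Real.log (M' * (1 + M)) / κ1 ≤ ℓ := by linarith
    rwa [div_le_iff₀ hκ1] at this
  -- the bounds for the combinations
  have hcomb : ∀ i : Fin k, ∀ u : ℂ, r ≤ u.re → u.re ≤ max Rc 1 → |u.im| ≤ max Rc 1 →
      ‖comb b A π i (1 / 2 + (t : ℂ) * I + u)‖ ≤ Real.exp (κ1 / 2 * ℓ) := by
    intro i
    obtain ⟨F, hF⟩ : ∃ F : ℂ → ℂ, F = fun u => comb b A π i (1 / 2 + (t : ℂ) * I + u) := ⟨_, rfl⟩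
    have hFd : Differentiable ℂ F := by
      rw [hF]
      exact (comb_diff b A π i).comp (by fun_prop)
    have hfar : ∀ u : ℂ, σ ≤ u.re → c ≤ ‖F u‖ ∧ ‖F u‖ ≤ 2 * M := fun u hu => by
      rw [hF, hMd]
      refine HF π i _ ?_
      have : (1 / 2 + (t : ℂ) * I + u : ℂ).re = 1 / 2 + u.re := by simp
      rw [this]
      linarith
    have hne : ∃ u, comb b A π i u ≠ 0 := by
      refine ⟨(σ : ℂ), fun h0 => ?_⟩
      have := (HF π i (σ : ℂ) (by simp)).1
      rw [h0, norm_zero] at this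
      linarith
    have hne2 : ∃ u, F u ≠ 0 := by
      refine ⟨(σ : ℂ), fun h0 => ?_⟩
      have := (hfar (σ : ℂ) (by simp)).1
      rw [h0, norm_zero] at this
      linarith
    have hcv : Cnt (comb b A π i) {z : ℂ | z ∈ {z : ℂ | 1 / 2 + κ2 ≤ z.re ∧ z.re ≤ 1 / 2 + R} ∧
        |z.im - t| ≤ |R|} ((2 * J + 1) * (κ2 / (2 * (2 * J + 1)) * (ℓ + rr))) := by
      refine cnt_cover' hJ ?_
      intro j hj
      have hj' : |(j : ℝ)| ≤ |(J : ℝ)| := by
        rw [abs_of_nonneg hJ0]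
        exact_mod_cast hj
      have hs1 := D_shift π (y := t) (y' := t + j) (R := (J : ℝ)) (by rwa [add_sub_cancel_left])
      have hs2 := D_shift π (y := t + j) (y' := t) (R := (J : ℝ)) (by
        rw [show t - (t + (j : ℝ)) = -(j : ℝ) by ring, abs_neg]
        exact hj')
      rw [← hrr, ← hℓd] at hs1 hs2
      have hbigj : Cf i ≤ D π (t + j) := by
        refine (hC0 i).trans ((le_max_left C0 1).trans ?_)
        rw [← Real.log_le_log_iff (lt_max_of_lt_right one_pos) (by linarith [D_one π (t + j)])]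
        linarith
      refine cnt_mono (HCf i π hπ (t + j) hbigj) (fun z hz => ⟨hz.1.1, hz.1.2, hz.2⟩) ?_
      apply mul_le_mul_of_nonneg_left hs2
      positivity
    have hcF : Cnt F {z : ℂ | κ2 ≤ z.re ∧ z.re ≤ R ∧ |z.im| ≤ R} (κ2 * ℓ) := by
      have h1 : Cnt (comb b A π i) {z : ℂ | z ∈ {z : ℂ | 1 / 2 + κ2 ≤ z.re ∧ z.re ≤ 1 / 2 + R} ∧
          |z.im - t| ≤ |R|} (κ2 * ℓ) := by
        refine cnt_mono hcv subset_rfl ?_
        have : (2 * (J : ℝ) + 1) * (κ2 / (2 * (2 * J + 1)) * (ℓ + rr)) = κ2 / 2 * (ℓ + rr) := by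
          field_simp
        rw [this]
        nlinarith
      refine cnt_shift hFd hne2 (-(1 / 2 + (t : ℂ) * I)) (A := {z : ℂ | z ∈ {z : ℂ | 1 / 2 + κ2 ≤ z.re ∧
        z.re ≤ 1 / 2 + R} ∧ |z.im - t| ≤ |R|}) ?_ ?_
      · have e : (fun u => F (-(1 / 2 + (t : ℂ) * I) + u)) = comb b A π i := by
          funext u
          rw [hF]
          simp only
          congr 1
          ring
        rw [e]
        exact h1
      · intro z hz _
        obtain ⟨z1, z2, z3⟩ := hz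
        have e1 : (z - -(1 / 2 + (t : ℂ) * I)).re = z.re + 1 / 2 := by simp
        have e2 : (z - -(1 / 2 + (t : ℂ) * I)).im - t = z.im := by simp
        refine ⟨⟨?_, ?_⟩, ?_⟩
        · rw [e1]; linarith
        · rw [e1]; linarith
        · rw [e2]; exact z3.trans (le_abs_self R)
    have h3 := HB ℓ F hℓ0 hFd (fun u a1 a2 a3 => by
        rw [hF]
        refine (comb_le b A π i (x := B1 + ℓ) (by linarith) (fun j => ?_)).trans ?_
        · refine (HT _ _ _ _ _ (std (π j)).1 t u a1 a2 a3).trans (Real.exp_le_exp.2 ?_)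
          have h2 := Ct_le_D π t j
          rw [← hℓd] at h2
          change Real.log (cnd (π j).N (π j).μ t) ≤ ℓ at h2
          linarith
        · rw [← hMd]
          have hM1 : 0 < M := by rw [hMd]; linarith
          calc M * Real.exp (B1 + ℓ) = Real.exp (Real.log M + (B1 + ℓ)) := by
                rw [Real.exp_add (Real.log M), Real.exp_log hM1]
            _ ≤ Real.exp (2 * ℓ) := by
                apply Real.exp_le_exp.2
                have : Real.log M ≤ Real.log (2 * M) := Real.log_le_log hM1 (by linarith)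
                linarith)
      (fun u a1 a2 a3 => by
        obtain ⟨f1, f2⟩ := hfar u a1
        constructor
        · refine le_trans ?_ f1
          have h4 : c = Real.exp (Real.log c) := (Real.exp_log hc).symm
          rw [h4]
          apply Real.exp_le_exp.2
          have := neg_abs_le (Real.log c)
          linarith
        · refine f2.trans ?_
          rw [← Real.log_le_iff_le_exp (by rw [hMd]; linarith)]
          linarith) hcF
    intro u a1 a2 a3
    have := h3 u a1 a2 a3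
    rwa [hF] at this
  -- inversion
  have hL : ∀ v : ℝ, |v| ≤ Rc →
      ‖L (π j0) (1 / 2 + (t : ℂ) * I + ((r : ℂ) + (v : ℂ) * I))‖ ≤ Real.exp (κ1 * ℓ) := by
    intro v hv
    obtain ⟨s, hs⟩ : ∃ s : ℂ, s = 1 / 2 + (t : ℂ) * I + ((r : ℂ) + (v : ℂ) * I) := ⟨_, rfl⟩
    have hcs : ∀ i, ‖comb b A π i s‖ ≤ Real.exp (κ1 / 2 * ℓ) := fun i => by
      rw [hs]
      exact hcomb i _ (by simp) (by simp; right; exact hr1) (by simp; left; exact hv)
    rw [← hs]
    have e : L (π j0) s = ∑ i, A⁻¹ j0 i * (comb b A π i s - b i) := by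
      have h1 : ∀ i, comb b A π i s - b i = ∑ j, A i j * L (π j) s := fun i => by
        unfold comb
        ring
      have h2 : (fun i => comb b A π i s - b i) = A.mulVec fun j => L (π j) s := by
        funext i
        rw [h1]
        rfl
      have h3 : A⁻¹.mulVec (fun i => comb b A π i s - b i) = fun j => L (π j) s := by
        rw [h2, Matrix.mulVec_mulVec, Matrix.nonsing_inv_mul A hA, Matrix.one_mulVec]
      have h4 := congrFun h3 j0
      rw [← h4]
      rfl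
    rw [e]
    refine (norm_sum_le _ _).trans ?_
    have h5 : (1 : ℝ) ≤ Real.exp (κ1 / 2 * ℓ) := Real.one_le_exp (by positivity)
    have hM1 : 1 ≤ M := by rw [hMd]; exact hM
    calc ∑ i, ‖A⁻¹ j0 i * (comb b A π i s - b i)‖ ≤
          ∑ i, ‖A⁻¹ j0 i‖ * ((1 + M) * Real.exp (κ1 / 2 * ℓ)) := by
          refine Finset.sum_le_sum fun i _ => ?_
          rw [norm_mul]
          refine mul_le_mul_of_nonneg_left ?_ (norm_nonneg _)
          refine (norm_sub_le _ _).trans ?_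
          have h6 := hcs i
          have h7 := Mx_row b A i
          rw [← hMd] at h7
          have h8 : 0 ≤ ∑ j, ‖A i j‖ := by positivity
          nlinarith
      _ = (∑ i, ‖A⁻¹ j0 i‖) * ((1 + M) * Real.exp (κ1 / 2 * ℓ)) := by rw [Finset.sum_mul]
      _ ≤ M' * ((1 + M) * Real.exp (κ1 / 2 * ℓ)) := by
          apply mul_le_mul_of_nonneg_right _ (by positivity)
          have := Mx_row b A⁻¹ j0
          have := norm_nonneg (b j0)
          rw [hM'd]
          linarith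
      _ = (M' * (1 + M)) * Real.exp (κ1 / 2 * ℓ) := by ring
      _ ≤ Real.exp (κ1 / 2 * ℓ) * Real.exp (κ1 / 2 * ℓ) := by
          apply mul_le_mul_of_nonneg_right _ (Real.exp_pos _).le
          rw [← Real.log_le_iff_le_exp (by positivity)]
          linarith
      _ = Real.exp (κ1 * ℓ) := by
          rw [← Real.exp_add]
          congr 1
          ring
  have hfin := HC _ _ _ _ _ (std (π j0)).1 t ℓ (by linarith) (by
    have h2 := Ct_le_D π t j0
    rwa [← hℓd] at h2) hL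
  refine hfin.trans (Real.exp_le_exp.2 ?_)
  linarith

/-- the class of tuples -/
def cls (P : CuspidalL m → Prop) : Cls m := fun N μ α e Λ =>
  ∃ π : CuspidalL m, P π ∧ π.N = N ∧ π.μ = μ ∧ π.α = α ∧ π.ε = e ∧ π.Λ = Λ

lemma C_one (π : CuspidalL m) (t : ℝ) : 1 ≤ (1 + |t|) * C π := by
  have h1 : 1 ≤ ∏ j, (1 + ‖π.μ j‖) := by
    refine Finset.prod_induction _ (fun x => (1 : ℝ) ≤ x) (fun a b ha hb => ?_) le_rfl fun j _ => ?_
    · nlinarith
    · linarith [norm_nonneg (π.μ j)]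
  have h2 : 1 ≤ C π := by
    unfold C
    have := π.one_le
    nlinarith
  have := abs_nonneg t
  nlinarith

/-- the standard form and the form with the conductor at the height `t` -/
lemma glh_to (hm : 1 ≤ m) (P : CuspidalL m → Prop) : GLH P ↔ ∀ ε : ℝ, 0 < ε → ∃ B : ℝ,
    ∀ π : CuspidalL m, P π → ∀ t : ℝ, ‖L π (1 / 2 + (t : ℂ) * I)‖ ≤ B * Ct π t ^ ε := by
  have hm' : (1 : ℝ) ≤ m := by exact_mod_cast hm
  constructor
  · intro h ε hε
    obtain ⟨B, HB⟩ := h (ε / (m + 2)) (by positivity)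
    refine ⟨max B 1, fun π hP y => ?_⟩
    have hB : 0 < max B 1 := lt_max_of_lt_right one_pos
    refine (HB π hP y).trans ?_
    rw [rpow_exp (C_one π y), rpow_exp (Ct_one π y)]
    refine mul_le_mul (le_max_left _ _) (Real.exp_le_exp.2 ?_) (Real.exp_pos _).le hB.le
    have h1 := (cnd_norm π.one_le π.μ hm π.normalised y).1
    change Real.log ((1 + |y|) * C π) ≤ (m + 2) * Real.log (Ct π y) at h1
    rw [div_mul_eq_mul_div, div_le_iff₀ (by positivity)]
    have h2 := mul_le_mul_of_nonneg_left h1 hε.le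
    linarith
  · intro h ε hε
    obtain ⟨B, HB⟩ := h (ε / m) (by positivity)
    refine ⟨max B 1, fun π hP t => ?_⟩
    have hB : 0 < max B 1 := lt_max_of_lt_right one_pos
    refine (HB π hP t).trans ?_
    rw [rpow_exp (C_one π t), rpow_exp (Ct_one π t)]
    refine mul_le_mul (le_max_left _ _) (Real.exp_le_exp.2 ?_) (Real.exp_pos _).le hB.le
    have h1 := (cnd_norm π.one_le π.μ hm π.normalised t).2
    change Real.log (Ct π t) ≤ (m : ℝ) * Real.log ((1 + |t|) * C π) at h1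
    rw [div_mul_eq_mul_div, div_le_iff₀ (by positivity)]
    have h4 := mul_le_mul_of_nonneg_left h1 hε.le
    linarith

lemma few_congr {T T' : Type} {P : T → Prop} {P' : T' → Prop} {Q : T → ℝ → ℝ} {Q' : T' → ℝ → ℝ}
    {F : T → ℂ → ℂ} {F' : T' → ℂ → ℂ} (φ : T' → T) (hP : ∀ x, P' x → P (φ x)) (hQ : ∀ x, Q (φ x) = Q' x)
    (hF : ∀ x, F (φ x) = F' x) (h : FewZeros P Q F) : FewZeros P' Q' F' := by
  intro δ ε X hδ hε
  obtain ⟨C₀, H⟩ := h δ ε X hδ hε
  refine ⟨C₀, fun x hx y hy S hS => ?_⟩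
  have := H (φ x) (hP x hx) y (by rw [hQ]; exact hy) S (by rw [hF]; exact hS)
  rwa [hQ, hF] at this

/-- `a`-points -/
theorem a_points (hm : 1 ≤ m) {a : ℂ} (ha : a ≠ 1) (P : CuspidalL m → Prop) :
    GLH P ↔ FewZeros P Ct fun π s => L π s - a := by
  obtain ⟨P', hP'⟩ : ∃ P' : (Fin 1 → CuspidalL m) → Prop, P' = fun π => P (π 0) := ⟨_, rfl⟩
  have h1 : JointLindelof P' ↔ ∀ i : Fin 1, FewZeros P' D fun π => comb (fun _ => -a) 1 π i := by
    have hrow : ∀ i : Fin 1, (fun _ : Fin 1 => -a) i + ∑ j, (1 : Matrix (Fin 1) (Fin 1) ℂ) i j ≠ 0 := by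
      intro i
      rw [Fin.sum_univ_one, Subsingleton.elim i 0, Matrix.one_apply_eq]
      intro h
      exact ha (by linear_combination -h)
    constructor
    · intro h i
      exact fwd hm _ _ hrow P' h i
    · exact bwd hm _ _ (by simp) hrow P'
  have hD : ∀ π : Fin 1 → CuspidalL m, D π = Ct (π 0) := fun π => by
    funext t
    unfold D
    rw [Fin.prod_univ_one]
  have hc : ∀ (π : Fin 1 → CuspidalL m) (i : Fin 1), comb (fun _ => -a) 1 π i = fun s => L (π 0) s - a := by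
    intro π i
    funext s
    unfold comb
    rw [Fin.sum_univ_one, Subsingleton.elim i 0, Matrix.one_apply_eq]
    ring
  rw [glh_to hm]
  have e1 : JointLindelof P' ↔ ∀ ε : ℝ, 0 < ε → ∃ B : ℝ,
      ∀ π : CuspidalL m, P π → ∀ t : ℝ, ‖L π (1 / 2 + (t : ℂ) * I)‖ ≤ B * Ct π t ^ ε := by
    constructor
    · intro h ε hε
      obtain ⟨B, HB⟩ := h ε hε
      refine ⟨B, fun π hπ t => ?_⟩
      have := HB (fun _ => π) (by rw [hP']; exact hπ) 0 t
      rwa [hD] at this
    · intro h ε hε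
      obtain ⟨B, HB⟩ := h ε hε
      refine ⟨B, fun π hπ j t => ?_⟩
      rw [hP'] at hπ
      have := HB (π 0) hπ t
      rwa [hD, Subsingleton.elim j 0]
  have e2 : (∀ i : Fin 1, FewZeros P' D fun π => comb (fun _ => -a) 1 π i) ↔
      FewZeros P Ct fun π s => L π s - a := by
    constructor
    · intro h
      exact few_congr (fun π _ => π) (fun π hπ => by rw [hP']; exact hπ) (fun π => hD _)
        (fun π => hc _ 0) (h 0)
    · intro h i
      exact few_congr (fun π => π 0) (fun π hπ => by rw [hP'] at hπ; exact hπ) (fun π => (hD _).symm)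
        (fun π => (hc _ i).symm) h
  rw [← e1, ← e2]
  exact h1

/-- coincidences of values of two L-functions -/
theorem pairs (hm : 1 ≤ m) {w₁ w₂ : ℂ} (h1 : w₁ ≠ 1) (h2 : w₂ ≠ 1) (h12 : w₁ ≠ w₂)
    (P : CuspidalL m × CuspidalL m → Prop) :
    (∀ ε : ℝ, 0 < ε → ∃ B : ℝ, ∀ π : CuspidalL m × CuspidalL m, P π → ∀ t : ℝ,
      ‖L π.1 (1 / 2 + (t : ℂ) * I)‖ ≤ B * (Ct π.1 t * Ct π.2 t) ^ ε ∧
      ‖L π.2 (1 / 2 + (t : ℂ) * I)‖ ≤ B * (Ct π.1 t * Ct π.2 t) ^ ε) ↔
    (FewZeros P (fun π t => Ct π.1 t * Ct π.2 t) (fun π s => L π.1 s - w₁ * L π.2 s) ∧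
      FewZeros P (fun π t => Ct π.1 t * Ct π.2 t) (fun π s => L π.1 s - w₂ * L π.2 s)) := by
  obtain ⟨P', hP'⟩ : ∃ P' : (Fin 2 → CuspidalL m) → Prop, P' = fun π => P (π 0, π 1) := ⟨_, rfl⟩
  obtain ⟨A, hA⟩ : ∃ A : Matrix (Fin 2) (Fin 2) ℂ, A = !![1, -w₁; 1, -w₂] := ⟨_, rfl⟩
  have hrow : ∀ i : Fin 2, (fun _ : Fin 2 => (0 : ℂ)) i + ∑ j, A i j ≠ 0 := by
    intro i
    rw [Fin.sum_univ_two, hA]
    fin_cases i
    · simp only [Fin.zero_eta, Matrix.of_apply, Matrix.cons_val', Matrix.cons_val_zero, Matrix.cons_val_one,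
        Matrix.cons_val_fin_one]
      intro h
      exact h1 (by linear_combination -h)
    · simp only [Fin.mk_one, Matrix.of_apply, Matrix.cons_val', Matrix.cons_val_zero, Matrix.cons_val_one,
        Matrix.cons_val_fin_one]
      intro h
      exact h2 (by linear_combination -h)
  have hdet : IsUnit A.det := by
    rw [hA, Matrix.det_fin_two_of, isUnit_iff_ne_zero]
    intro h
    exact h12 (by linear_combination h)
  have key : JointLindelof P' ↔ ∀ i : Fin 2, FewZeros P' D fun π => comb (fun _ => 0) A π i :=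
    ⟨fun h i => fwd hm _ _ hrow P' h i, bwd hm _ _ hdet hrow P'⟩
  have hD : ∀ π : Fin 2 → CuspidalL m, D π = fun t => Ct (π 0) t * Ct (π 1) t := fun π => by
    funext t
    unfold D
    rw [Fin.prod_univ_two]
  have hc0 : ∀ π : Fin 2 → CuspidalL m, comb (fun _ => 0) A π 0 = fun s => L (π 0) s - w₁ * L (π 1) s := by
    intro π
    funext s
    unfold comb
    rw [Fin.sum_univ_two, hA]
    simp
    ring
  have hc1 : ∀ π : Fin 2 → CuspidalL m, comb (fun _ => 0) A π 1 = fun s => L (π 0) s - w₂ * L (π 1) s := by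
    intro π
    funext s
    unfold comb
    rw [Fin.sum_univ_two, hA]
    simp
    ring
  have e1 : JointLindelof P' ↔ (∀ ε : ℝ, 0 < ε → ∃ B : ℝ, ∀ π : CuspidalL m × CuspidalL m, P π →
      ∀ t : ℝ, ‖L π.1 (1 / 2 + (t : ℂ) * I)‖ ≤ B * (Ct π.1 t * Ct π.2 t) ^ ε ∧
      ‖L π.2 (1 / 2 + (t : ℂ) * I)‖ ≤ B * (Ct π.1 t * Ct π.2 t) ^ ε) := by
    constructor
    · intro h ε hε
      obtain ⟨B, HB⟩ := h ε hε
      refine ⟨B, fun π hπ t => ?_⟩
      have h0 := HB ![π.1, π.2] (by rw [hP']; exact hπ) 0 t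
      have h1 := HB ![π.1, π.2] (by rw [hP']; exact hπ) 1 t
      rw [hD] at h0 h1
      exact ⟨h0, h1⟩
    · intro h ε hε
      obtain ⟨B, HB⟩ := h ε hε
      refine ⟨B, fun π hπ j t => ?_⟩
      rw [hP'] at hπ
      have := HB (π 0, π 1) hπ t
      rw [hD]
      fin_cases j
      · exact this.1
      · exact this.2
  have e2 : (∀ i : Fin 2, FewZeros P' D fun π => comb (fun _ => 0) A π i) ↔
      (FewZeros P (fun π t => Ct π.1 t * Ct π.2 t) (fun π s => L π.1 s - w₁ * L π.2 s) ∧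
        FewZeros P (fun π t => Ct π.1 t * Ct π.2 t) (fun π s => L π.1 s - w₂ * L π.2 s)) := by
    constructor
    · intro h
      exact ⟨few_congr (fun π => ![π.1, π.2]) (fun π hπ => by rw [hP']; exact hπ) (fun π => hD _)
          (fun π => hc0 _) (h 0),
        few_congr (fun π => ![π.1, π.2]) (fun π hπ => by rw [hP']; exact hπ) (fun π => hD _)
          (fun π => hc1 _) (h 1)⟩
    · rintro ⟨ha, hb⟩
      rw [Fin.forall_fin_two]
      exact ⟨few_congr (fun π => (π 0, π 1)) (fun π hπ => by rw [hP'] at hπ; exact hπ)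
          (fun π => (hD _).symm) (fun π => (hc0 _).symm) ha,
        few_congr (fun π => (π 0, π 1)) (fun π hπ => by rw [hP'] at hπ; exact hπ)
          (fun π => (hD _).symm) (fun π => (hc1 _).symm) hb⟩
  rw [← e1, ← e2]
  exact key

/-- **Main theorem.** Let `m ≥ 1`.  (1) Let `A` be an invertible `k × k` matrix and `b` a vector with
`b_i + ∑_j A_ij ≠ 0` for all `i`, and let `P` be a set of `k`-tuples of cuspidal representations of
`GL_m(𝔸_ℚ)`.  The joint Lindelöf hypothesis for the members of the tuples in `P` holds if and only if the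
linear combinations `b_i + ∑_j A_ij L(s, π_j)` have few zeros off the critical line.  (2) For every complex
number `a ≠ 1` the Grand Lindelöf Hypothesis on a set of `π` is equivalent to few solutions of
`L(s, π) = a` off the critical line.  (3) For two different numbers `w₁`, `w₂` different from `1`, the joint
Lindelöf hypothesis for a set of pairs is equivalent to few coincidences `L(s, π) = w₁ L(s, π')` and
`L(s, π) = w₂ L(s, π')` off the critical line. -/
theorem result (hm : 1 ≤ m) :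
    (∀ (k : ℕ) (b : Fin k → ℂ) (A : Matrix (Fin k) (Fin k) ℂ), IsUnit A.det →
      (∀ i, b i + ∑ j, A i j ≠ 0) → ∀ P : (Fin k → CuspidalL m) → Prop,
      (JointLindelof P ↔ ∀ i, FewZeros P D fun π => comb b A π i)) ∧
    (∀ a : ℂ, a ≠ 1 → ∀ P : CuspidalL m → Prop, (GLH P ↔ FewZeros P Ct fun π s => L π s - a)) ∧
    (∀ w₁ w₂ : ℂ, w₁ ≠ 1 → w₂ ≠ 1 → w₁ ≠ w₂ → ∀ P : CuspidalL m × CuspidalL m → Prop,
      ((∀ ε : ℝ, 0 < ε → ∃ B : ℝ, ∀ π : CuspidalL m × CuspidalL m, P π → ∀ t : ℝ,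
        ‖L π.1 (1 / 2 + (t : ℂ) * I)‖ ≤ B * (Ct π.1 t * Ct π.2 t) ^ ε ∧
        ‖L π.2 (1 / 2 + (t : ℂ) * I)‖ ≤ B * (Ct π.1 t * Ct π.2 t) ^ ε) ↔
      (FewZeros P (fun π t => Ct π.1 t * Ct π.2 t) (fun π s => L π.1 s - w₁ * L π.2 s) ∧
        FewZeros P (fun π t => Ct π.1 t * Ct π.2 t) (fun π s => L π.1 s - w₂ * L π.2 s)))) :=
  ⟨fun _ b A hA h P => ⟨fun hP i => fwd hm b A h P hP i, bwd hm b A hA h P⟩,
    fun _ ha P => a_points hm ha P, fun _ _ h1 h2 h12 P => pairs hm h1 h2 h12 P⟩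

end Pool.Agent.Results.MP_52e316_nt.Coincidences
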