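import Pool.Agent.Results.MP_52e316_nt.PersistentLargeValues
import Pool.Agent.Q231.RS.Fam
import Pool.Agent.Q231.RS.Zeta
import Pool.Agent.TH158.FM.Main
import Mathlib.Probability.Independence.InfinitePi

/-!
# The Grand Lindelöf Hypothesis and Monte Carlo

Let `L_i` be a family of L-functions of `GL(m)` with conductors `C_i` (or of primitive Dirichlet characters) and let
`A > 0`. For `C_i ≤ T^A` consider the mean value `M_k` of `|L_i(1/2 + it)|^k` over `[-T, T]`. We show that the Grand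
Lindelöf Hypothesis for the family is equivalent to its mean value form `M_c = O(T^ε)` (for one exponent `c > 0`) together
with the statement that random sampling works with `T^δ` points, for every `δ > 0`. The strong form of the latter:
any `N ≥ T^δ` pairwise independent uniform random points of `[-T, T]` give `M_k`, for each `k > 0`, with an error at most
`N^(-1/4)` outside an event of probability at most `N^(-1/4)`. The weak form: for each `δ > 0` there are arbitrarily large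
`k` such that some at most `T^δ` uniform random points with any dependence (a random translate of a grid, say) bound
`M_k` from above up to a factor `T^δ` with probability at least `T^(-δ)`. For zeta the mean value form is a theorem,
and the Lindelöf hypothesis is equivalent to each of the two sampling statements.

Proof. If a large value `X^ε` is taken, it persists on a subset of a unit interval with measure bounded from below
(starting hand-in `PersistentLargeValues`), so for large `k` the root `M_k^(1/k)` is a positive power of `T`. If the sample sees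
this moment, with `T^δ` points and probability at least `T^(-δ)`, then `|L|` is at least about `M_k^(1/k)` on a proportion
`T^(-2δ)` of `[-T, T]`, which contradicts the bound for the mean value. In the other direction use Chebyshev's inequality.
-/

set_option autoImplicit false

open MeasureTheory ProbabilityTheory Filter Topology Set

namespace Pool.Agent.Results.MP_52e316_nt.MonteCarlo

open Pool.Agent.Results.MP_52e316_nt.PersistentLargeValues (Datum Molteni)

/-- The mean of `|L_i(1/2 + it)|^k` over `[-T, T]`. -/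
noncomputable def M {ι : Type} (L : ι → ℂ → ℂ) (i : ι) (k T : ℝ) : ℝ :=
  (∫ t in (-T)..T, ‖L i (1 / 2 + t * Complex.I)‖ ^ k) / (2 * T)

/-- The mean of `|L_i(1/2 + it)|^k` over the sample `t = v_1, ..., v_N`. -/
noncomputable def E {ι : Type} (L : ι → ℂ → ℂ) (i : ι) (k : ℝ) {N : ℕ} (v : Fin N → ℝ) : ℝ :=
  (∑ j, ‖L i (1 / 2 + v j * Complex.I)‖ ^ k) / N

/-- The random points `V_1, ..., V_N` are each uniformly distributed on `[-T, T]`. -/
def Uniform {Ω : Type} [MeasurableSpace Ω] (P : Measure Ω) (T : ℝ) {N : ℕ} (V : Fin N → Ω → ℝ) : Prop :=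
  ∀ j, Measurable (V j) ∧ P.map (V j) = (ENNReal.ofReal (2 * T))⁻¹ • volume.restrict (Icc (-T) T)

/-- The Grand Lindelöf Hypothesis for the family. -/
def Lindelof {ι : Type} (L : ι → ℂ → ℂ) (C : ι → ℝ) : Prop :=
  ∀ ε : ℝ, 0 < ε → ∃ B : ℝ, ∀ (i : ι) (t : ℝ), ‖L i (1 / 2 + t * Complex.I)‖ ≤ B * ((1 + |t|) * C i) ^ ε

/-- The Lindelöf bound for the mean of `|L_i|^c` over `[-T, T]`, for the members of conductor at most `T^A`. -/
def MeanLindelof {ι : Type} (L : ι → ℂ → ℂ) (C : ι → ℝ) (A c : ℝ) : Prop :=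
  ∀ ε : ℝ, 0 < ε → ∃ B : ℝ, ∀ (i : ι) (T : ℝ), 1 ≤ T → C i ≤ T ^ A → M L i c T ≤ B * T ^ ε

/-- Every moment is given by any `N ≥ T^δ` pairwise independent uniform random points, with an error `≤ N^(-1/4)`
outside an event of probability `≤ N^(-1/4)`. -/
def Sampling {ι : Type} (L : ι → ℂ → ℂ) (C : ι → ℝ) (A : ℝ) : Prop :=
  ∀ k δ : ℝ, 0 < k → 0 < δ → ∃ T₀ : ℝ, ∀ (i : ι) (T : ℝ) (N : ℕ), T₀ ≤ T → C i ≤ T ^ A → T ^ δ ≤ N →
    ∀ (Ω : Type) [MeasurableSpace Ω] (P : Measure Ω) [IsProbabilityMeasure P] (V : Fin N → Ω → ℝ),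
      Uniform P T V → (Pairwise fun j l => IndepFun (V j) (V l) P) →
        P {ω | (N : ℝ) ^ (-(1 / 4 : ℝ)) ≤ |E L i k (fun j => V j ω) - M L i k T|} ≤
          ENNReal.ofReal ((N : ℝ) ^ (-(1 / 4 : ℝ)))

/-- For every `δ > 0` there are arbitrarily large `k` such that some (dependent) uniform random points, at most `T^δ` in
number, give the `k`-th moment up to a factor `T^δ` from above with probability at least `T^(-δ)`. -/
def WeakSampling {ι : Type} (L : ι → ℂ → ℂ) (C : ι → ℝ) (A : ℝ) : Prop :=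
  ∀ δ : ℝ, 0 < δ → ∀ K : ℝ, ∃ k : ℝ, K ≤ k ∧ ∃ T₀ : ℝ, ∀ (i : ι) (T : ℝ), T₀ ≤ T → C i ≤ T ^ A →
    ∃ N : ℕ, 1 ≤ N ∧ (N : ℝ) ≤ T ^ δ ∧ ∃ (Ω : Type) (_ : MeasurableSpace Ω) (P : Measure Ω)
      (_ : IsProbabilityMeasure P) (V : Fin N → Ω → ℝ), Uniform P T V ∧
        ENNReal.ofReal (T ^ (-δ)) ≤ P {ω | M L i k T ≤ T ^ δ * (1 + E L i k (fun j => V j ω))}

section proofs

variable {ι : Type} {L : ι → ℂ → ℂ} {C : ι → ℝ}

/-- what is used about the family -/
structure Pers (L : ι → ℂ → ℂ) (C : ι → ℝ) : Prop where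
  one : ∀ i, 1 ≤ C i
  cont : ∀ i, Continuous fun x : ℝ => ‖L i (1 / 2 + x * Complex.I)‖
  large : ¬ Lindelof L C → ∃ κ δ : ℝ, 0 < κ ∧ 0 < δ ∧ ∀ R : ℝ, ∃ (i : ι) (t : ℝ), R < (1 + |t|) * C i ∧
    ENNReal.ofReal δ ≤ volume {x : ℝ | |x - t| ≤ 1 ∧ ((1 + |t|) * C i) ^ κ ≤ ‖L i (1 / 2 + x * Complex.I)‖}

lemma low {f : ℝ → ℝ} (hf : Continuous f) (hf0 : ∀ x, 0 ≤ f x) {T : ℝ} (hT : 0 < T) {y : ℝ} (hy : 0 ≤ y)
    {S : Set ℝ} (hS : S ⊆ {x | y ≤ f x} ∩ Icc (-T) T) {a : ℝ} (ha : ENNReal.ofReal a ≤ volume S) :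
    y * a ≤ ∫ x in (-T)..T, f x := by
  rw [intervalIntegral.integral_of_le (by linarith), ← integral_Icc_eq_integral_Ioc]
  have h1 := mul_meas_ge_le_integral_of_nonneg (μ := volume.restrict (Icc (-T) T)) (f := f)
    (Eventually.of_forall hf0) (hf.integrableOn_Icc) y
  refine le_trans (mul_le_mul_of_nonneg_left ?_ hy) h1
  have h2 : MeasurableSet {x | y ≤ f x} := measurableSet_le measurable_const hf.measurable
  have h3 : ENNReal.ofReal a ≤ (volume.restrict (Icc (-T) T)) {x | y ≤ f x} := by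
    rw [Measure.restrict_apply h2]
    exact ha.trans (measure_mono hS)
  exact (ENNReal.ofReal_le_iff_le_toReal (measure_ne_top _ _)).1 h3

lemma unif_int {Ω : Type} [MeasurableSpace Ω] {P : Measure Ω} {T : ℝ} (hT : 0 < T) {N : ℕ} {V : Fin N → Ω → ℝ}
    (hV : Uniform P T V) {g : ℝ → ℝ} (hg : Continuous g) (j : Fin N) :
    ∫ ω, g (V j ω) ∂P = (∫ x in (-T)..T, g x) / (2 * T) := by
  rw [← integral_map (hV j).1.aemeasurable hg.aestronglyMeasurable, (hV j).2, integral_smul_measure,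
    intervalIntegral.integral_of_le (by linarith), integral_Icc_eq_integral_Ioc, ENNReal.toReal_inv,
    ENNReal.toReal_ofReal (by linarith), smul_eq_mul]
  field_simp

lemma unif_mem {Ω : Type} [MeasurableSpace Ω] {P : Measure Ω} {T : ℝ} {N : ℕ} {V : Fin N → Ω → ℝ}
    (hV : Uniform P T V) (j : Fin N) : ∀ᵐ ω ∂P, V j ω ∈ Icc (-T) T := by
  have h1 : ∀ᵐ x ∂(P.map (V j)), x ∈ Icc (-T) T := by
    rw [(hV j).2]
    exact Measure.ae_smul_measure (ae_restrict_mem measurableSet_Icc) _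
  exact ae_of_ae_map (hV j).1.aemeasurable h1

lemma unif_prob {Ω : Type} [MeasurableSpace Ω] {P : Measure Ω} {T : ℝ} {N : ℕ} {V : Fin N → Ω → ℝ}
    (hV : Uniform P T V) (j : Fin N) {S : Set ℝ} (hS : MeasurableSet S) :
    P {ω | V j ω ∈ S} = (ENNReal.ofReal (2 * T))⁻¹ * volume (S ∩ Icc (-T) T) := by
  have h1 := Measure.map_apply (hV j).1 hS (μ := P)
  rw [(hV j).2] at h1
  rw [show {ω | V j ω ∈ S} = V j ⁻¹' S from rfl, ← h1]
  simp [Measure.restrict_apply hS]

/-- Chebyshev's inequality -/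
lemma cheb {Ω : Type} [MeasurableSpace Ω] {P : Measure Ω} [IsProbabilityMeasure P] {T : ℝ} (hT : 0 < T) {N : ℕ}
    (hN : 1 ≤ N) {V : Fin N → Ω → ℝ} (hV : Uniform P T V) (hi : Pairwise fun j l => IndepFun (V j) (V l) P)
    {g : ℝ → ℝ} (hg : Continuous g) (hg0 : ∀ x, 0 ≤ g x) {s : ℝ} (hs : ∀ x ∈ Icc (-T) T, g x ≤ s) {η : ℝ}
    (hη : 0 < η) :
    P {ω | η ≤ |(∑ j, g (V j ω)) / N - (∫ x in (-T)..T, g x) / (2 * T)|} ≤ ENNReal.ofReal (s ^ 2 / (N * η ^ 2)) := by
  have hNR : (1 : ℝ) ≤ N := by exact_mod_cast hN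
  have hN0 : (0 : ℝ) < N := by linarith
  set m : ℝ := (∫ x in (-T)..T, g x) / (2 * T) with hm
  set Y : Fin N → Ω → ℝ := fun j ω => g (V j ω) with hY
  have hb : ∀ j, ∀ᵐ ω ∂P, ‖Y j ω‖ ≤ s := by
    intro j
    filter_upwards [unif_mem hV j] with ω hω
    rw [Real.norm_of_nonneg (hg0 _)]
    exact hs _ hω
  have hLp : ∀ j, MemLp (Y j) 2 P := fun j =>
    MemLp.of_bound (hg.measurable.comp (hV j).1).aestronglyMeasurable s (hb j)
  have hmean : ∫ ω, (∑ j, Y j) ω ∂P = N * m := by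
    have e1 : ∫ ω, (∑ j, Y j) ω ∂P = ∑ j, ∫ ω, Y j ω ∂P := by
      simp only [Finset.sum_apply]
      exact integral_finsetSum _ fun j _ => (hLp j).integrable (by norm_num)
    rw [e1, Finset.sum_congr rfl fun j _ => unif_int hT hV hg j]
    simp [← hm]
  have hs0 : 0 ≤ s := (hg0 0).trans (hs 0 ⟨by linarith, by linarith⟩)
  have hvar : variance (∑ j, Y j) P ≤ N * s ^ 2 := by
    rw [IndepFun.variance_sum (fun j _ => hLp j) (fun j _ l _ hjl => (hi hjl).comp hg.measurable hg.measurable)]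
    have h1 : ∀ j ∈ Finset.univ, variance (Y j) P ≤ s ^ 2 := by
      intro j _
      refine (variance_le_expectation_sq (μ := P) (hLp j).aestronglyMeasurable).trans ?_
      have h2 : ∫ ω, (Y j ^ 2) ω ∂P ≤ ∫ _, s ^ 2 ∂P := by
        refine integral_mono_ae (hLp j).integrable_sq (integrable_const _) ?_
        filter_upwards [hb j] with ω hω
        simp only [Pi.pow_apply]
        rw [Real.norm_eq_abs] at hω
        rw [← sq_abs]
        exact pow_le_pow_left₀ (abs_nonneg _) hω 2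
      simpa using h2
    refine (Finset.sum_le_sum h1).trans (le_of_eq ?_)
    simp
  have hSLp : MemLp (∑ j, Y j) 2 P := memLp_finsetSum' _ fun j _ => hLp j
  have h3 := meas_ge_le_variance_div_sq hSLp (mul_pos hN0 hη)
  rw [hmean] at h3
  have e2 : {ω | N * η ≤ |(∑ j, Y j) ω - N * m|} = {ω | η ≤ |(∑ j, g (V j ω)) / N - m|} := by
    ext ω
    simp only [mem_setOf_eq, Finset.sum_apply, hY]
    have e3 : (∑ j, g (V j ω)) - N * m = N * ((∑ j, g (V j ω)) / N - m) := by field_simp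
    rw [e3, abs_mul, abs_of_pos hN0]
    exact ⟨fun h => le_of_mul_le_mul_left h hN0, fun h => mul_le_mul_of_nonneg_left h hN0.le⟩
  rw [e2] at h3
  refine h3.trans (ENNReal.ofReal_le_ofReal ?_)
  rw [div_le_div_iff₀ (by positivity) (by positivity)]
  calc variance (∑ j, Y j) P * (N * η ^ 2) ≤ N * s ^ 2 * (N * η ^ 2) :=
        mul_le_mul_of_nonneg_right hvar (by positivity)
    _ = s ^ 2 * (N * η) ^ 2 := by ring

lemma pow_cont (H : Pers L C) (i : ι) {k : ℝ} (hk : 0 < k) :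
    Continuous fun x : ℝ => ‖L i (1 / 2 + x * Complex.I)‖ ^ k :=
  (H.cont i).rpow_const fun _ => Or.inr hk.le

lemma sup_bound (hC : ∀ i, 1 ≤ C i) (h : Lindelof L C) {A : ℝ} (hA : 0 < A) {ε : ℝ} (hε : 0 < ε) :
    ∃ B : ℝ, 1 ≤ B ∧ ∀ (i : ι) (T t : ℝ), 1 ≤ T → C i ≤ T ^ A → |t| ≤ T →
      ‖L i (1 / 2 + t * Complex.I)‖ ≤ B * T ^ ε := by
  set e : ℝ := ε / (1 + A) with he
  have he0 : 0 < e := by positivity
  obtain ⟨B, hB⟩ := h e he0
  refine ⟨max B 1 * 2 ^ e + 1, ?_, fun i T t hT hCT ht => ?_⟩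
  · have : 0 < max B 1 * 2 ^ e := by
      have := le_max_right B 1
      positivity
    linarith
  have hT0 : 0 < T := by linarith
  have hC1 := hC i
  have h1 : (1 + |t|) * C i ≤ 2 * T ^ (1 + A) := by
    rw [Real.rpow_add hT0, Real.rpow_one]
    have h2 : 1 + |t| ≤ 2 * T := by linarith
    calc (1 + |t|) * C i ≤ (2 * T) * T ^ A := mul_le_mul h2 hCT (by linarith) (by linarith)
      _ = 2 * (T * T ^ A) := by ring
  have h3 : ((1 + |t|) * C i) ^ e ≤ 2 ^ e * T ^ ε := by
    have h4 : 0 ≤ (1 + |t|) * C i := mul_nonneg (by positivity) (by linarith)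
    refine (Real.rpow_le_rpow h4 h1 he0.le).trans (le_of_eq ?_)
    rw [Real.mul_rpow (by norm_num) (by positivity), ← Real.rpow_mul hT0.le]
    congr 2
    rw [he]
    field_simp
  have h5 : 0 ≤ ((1 + |t|) * C i) ^ e := by positivity
  have h6 : 0 ≤ T ^ ε := by positivity
  calc ‖L i (1 / 2 + t * Complex.I)‖ ≤ B * ((1 + |t|) * C i) ^ e := hB i t
    _ ≤ max B 1 * ((1 + |t|) * C i) ^ e := mul_le_mul_of_nonneg_right (le_max_left _ _) h5
    _ ≤ max B 1 * (2 ^ e * T ^ ε) := mul_le_mul_of_nonneg_left h3 (by have := le_max_right B 1; linarith)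
    _ ≤ (max B 1 * 2 ^ e + 1) * T ^ ε := by nlinarith

lemma mean_of (H : Pers L C) (h : Lindelof L C) {A c : ℝ} (hA : 0 < A) (hc : 0 < c) : MeanLindelof L C A c := by
  intro ε hε
  obtain ⟨B, hB1, hB⟩ := sup_bound H.one h hA (div_pos hε hc)
  refine ⟨B ^ c, fun i T hT hCT => ?_⟩
  have hT0 : 0 < T := by linarith
  have h1 : ∀ t ∈ Icc (-T) T, ‖L i (1 / 2 + t * Complex.I)‖ ^ c ≤ B ^ c * T ^ ε := by
    intro t ht
    refine (Real.rpow_le_rpow (norm_nonneg _) (hB i T t hT hCT (abs_le.2 ht)) hc.le).trans (le_of_eq ?_)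
    rw [Real.mul_rpow (by linarith) (by positivity), ← Real.rpow_mul hT0.le, div_mul_cancel₀ _ hc.ne']
  have h2 := intervalIntegral.integral_mono_on (μ := volume) (a := -T) (b := T) (by linarith)
    ((pow_cont H i hc).intervalIntegrable _ _) (intervalIntegrable_const (c := B ^ c * T ^ ε)) h1
  rw [intervalIntegral.integral_const, smul_eq_mul] at h2
  unfold M
  rw [div_le_iff₀ (by linarith)]
  linarith

lemma sampling_of (H : Pers L C) (h : Lindelof L C) {A : ℝ} (hA : 0 < A) : Sampling L C A := by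
  intro k δ hk hδ
  obtain ⟨B, hB1, hB⟩ := sup_bound H.one h hA (ε := δ / (16 * k)) (by positivity)
  have hB0 : 0 < B := by linarith
  have htop : Tendsto (fun T : ℝ => T ^ (δ / 8)) atTop atTop := tendsto_rpow_atTop (by positivity)
  obtain ⟨T₁, hT₁⟩ := eventually_atTop.1 ((htop.eventually_ge_atTop (B ^ (2 * k))).and (eventually_ge_atTop (1 : ℝ)))
  refine ⟨max T₁ 1, fun i T N hT hCT hN Ω _ P _ V hV hi => ?_⟩
  obtain ⟨h1, h2⟩ := hT₁ T ((le_max_left _ _).trans hT)
  have hT0 : 0 < T := by linarith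
  have hN1 : (1 : ℝ) ≤ N := (Real.one_le_rpow h2 hδ.le).trans hN
  have hN0 : (0 : ℝ) < N := by linarith
  have hs : ∀ x ∈ Icc (-T) T, ‖L i (1 / 2 + x * Complex.I)‖ ^ k ≤ B ^ k * T ^ (δ / 16) := by
    intro t ht
    refine (Real.rpow_le_rpow (norm_nonneg _) (hB i T t h2 hCT (abs_le.2 ht)) hk.le).trans (le_of_eq ?_)
    rw [Real.mul_rpow (by linarith) (by positivity), ← Real.rpow_mul hT0.le]
    congr 2
    field_simp
  have h3 := cheb hT0 (by exact_mod_cast hN1) hV hi (pow_cont H i hk) (fun x => by positivity) hs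
    (η := (N : ℝ) ^ (-(1 / 4 : ℝ))) (by positivity)
  refine h3.trans (ENNReal.ofReal_le_ofReal ?_)
  have e1 : (B ^ k * T ^ (δ / 16)) ^ 2 = B ^ (2 * k) * T ^ (δ / 8) := by
    rw [mul_pow, ← Real.rpow_natCast, ← Real.rpow_mul hB0.le, ← Real.rpow_natCast (T ^ (δ / 16)),
      ← Real.rpow_mul hT0.le]
    congr 2 <;> push_cast <;> ring
  have e2 : (N : ℝ) * ((N : ℝ) ^ (-(1 / 4 : ℝ))) ^ 2 = (N : ℝ) ^ (1 / 2 : ℝ) := by
    rw [← Real.rpow_natCast, ← Real.rpow_mul hN0.le]
    nth_rewrite 1 [← Real.rpow_one (N : ℝ)]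
    rw [← Real.rpow_add hN0]
    norm_num
  rw [e1, e2, div_le_iff₀ (by positivity), ← Real.rpow_add hN0]
  have e3 : (N : ℝ) ^ (-(1 / 4 : ℝ) + 1 / 2) = (N : ℝ) ^ (1 / 4 : ℝ) := by norm_num
  rw [e3]
  have h4 : T ^ (δ / 4) ≤ (N : ℝ) ^ (1 / 4 : ℝ) := by
    have := Real.rpow_le_rpow (by positivity) hN (show (0 : ℝ) ≤ 1 / 4 by norm_num)
    rwa [← Real.rpow_mul hT0.le, show δ * (1 / 4) = δ / 4 by ring] at this
  refine le_trans ?_ h4
  calc B ^ (2 * k) * T ^ (δ / 8) ≤ T ^ (δ / 8) * T ^ (δ / 8) := mul_le_mul_of_nonneg_right h1 (by positivity)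
    _ = T ^ (δ / 4) := by rw [← Real.rpow_add hT0]; congr 1; ring

/-- independent uniform points exist -/
lemma exists_points {T : ℝ} (hT : 0 < T) (N : ℕ) : ∃ (P : Measure (Fin N → ℝ)) (_ : IsProbabilityMeasure P),
    Uniform P T (fun (j : Fin N) (θ : Fin N → ℝ) => θ j) ∧
      Pairwise fun j l : Fin N => IndepFun (fun θ : Fin N → ℝ => θ j) (fun θ => θ l) P := by
  set μ : Measure ℝ := (ENNReal.ofReal (2 * T))⁻¹ • volume.restrict (Icc (-T) T) with hμ
  have : IsProbabilityMeasure μ := by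
    refine ⟨?_⟩
    rw [hμ, Measure.smul_apply, Measure.restrict_apply_univ, Real.volume_Icc, smul_eq_mul]
    rw [show T - -T = 2 * T by ring]
    exact ENNReal.inv_mul_cancel (by simpa using hT) ENNReal.ofReal_ne_top
  refine ⟨Measure.infinitePi fun _ : Fin N => μ, inferInstance, fun j => ⟨measurable_pi_apply j, ?_⟩, ?_⟩
  · exact Measure.infinitePi_map_eval (fun _ : Fin N => μ) j
  · have h1 : iIndepFun (fun (j : Fin N) (θ : Fin N → ℝ) => θ j) (Measure.infinitePi fun _ : Fin N => μ) := by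
      have := iIndepFun_infinitePi (P := fun _ : Fin N => μ) (X := fun (_ : Fin N) (x : ℝ) => x)
        (fun _ => measurable_id)
      exact this
    intro j l hjl
    exact h1.indepFun hjl

lemma weak_of {A : ℝ} (h : Sampling L C A) : WeakSampling L C A := by
  intro δ hδ K
  set k : ℝ := max K 1 with hk
  have hk0 : 0 < k := lt_of_lt_of_le one_pos (le_max_right K 1)
  obtain ⟨T₀, hT₀⟩ := h k (δ / 2) hk0 (by positivity)
  have htop : Tendsto (fun T : ℝ => T ^ (δ / 2)) atTop atTop := tendsto_rpow_atTop (by positivity)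
  obtain ⟨T₁, hT₁⟩ := eventually_atTop.1 ((htop.eventually_ge_atTop 16).and (eventually_ge_atTop (1 : ℝ)))
  refine ⟨k, le_max_left _ _, max T₀ T₁, fun i T hT hCT => ?_⟩
  obtain ⟨h1, h2⟩ := hT₁ T ((le_max_right _ _).trans hT)
  have hT0 : 0 < T := by linarith
  set N : ℕ := ⌈T ^ (δ / 2)⌉₊ with hN
  have hN1 : T ^ (δ / 2) ≤ N := Nat.le_ceil _
  have hN2 : (N : ℝ) ≤ T ^ (δ / 2) + 1 := (Nat.ceil_lt_add_one (by positivity)).le
  have hN16 : (16 : ℝ) ≤ N := h1.trans hN1
  have hN0 : (0 : ℝ) < N := by linarith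
  have e1 : T ^ δ = T ^ (δ / 2) * T ^ (δ / 2) := by rw [← Real.rpow_add hT0]; congr 1; ring
  obtain ⟨P, hP, hU, hI⟩ := exists_points hT0 N
  have h4 := hT₀ i T N ((le_max_left _ _).trans hT) hCT hN1 (Fin N → ℝ) P (fun j θ => θ j) hU hI
  have hN4 : (N : ℝ) ^ (-(1 / 4 : ℝ)) ≤ 1 / 2 := by
    have h5 : (2 : ℝ) ≤ (N : ℝ) ^ (1 / 4 : ℝ) := by
      have h6 := Real.rpow_le_rpow (by norm_num) hN16 (show (0 : ℝ) ≤ 1 / 4 by norm_num)
      have h7 : (16 : ℝ) ^ (1 / 4 : ℝ) = 2 := by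
        rw [show (16 : ℝ) = 2 ^ (4 : ℝ) by norm_num, ← Real.rpow_mul (by norm_num)]
        norm_num
      linarith
    rw [Real.rpow_neg hN0.le, show (1 : ℝ) / 2 = 2⁻¹ by norm_num]
    exact inv_anti₀ (by norm_num) h5
  refine ⟨N, ?_, ?_, Fin N → ℝ, inferInstance, P, hP, fun j θ => θ j, hU, ?_⟩
  · have : (1 : ℝ) ≤ N := by linarith
    exact_mod_cast this
  · rw [e1]
    nlinarith
  · -- the complement of the bad event
    set Bad : Set (Fin N → ℝ) := {θ | (N : ℝ) ^ (-(1 / 4 : ℝ)) ≤ |E L i k (fun j => θ j) - M L i k T|} with hBad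
    have h5 : Badᶜ ⊆ {θ | M L i k T ≤ T ^ δ * (1 + E L i k (fun j => θ j))} := by
      intro θ hθ
      simp only [hBad, mem_compl_iff, mem_setOf_eq, not_le] at hθ ⊢
      have h6 := (abs_lt.1 hθ).1
      have hE : 0 ≤ E L i k (fun j => θ j) := by unfold E; positivity
      have hT1 : 1 ≤ T ^ δ := Real.one_le_rpow h2 hδ.le
      nlinarith
    refine le_trans ?_ (measure_mono h5)
    have h6 : P Bad ≤ ENNReal.ofReal (1 / 2) := h4.trans (ENNReal.ofReal_le_ofReal hN4)
    have h7 : (1 : ENNReal) ≤ P Bad + P Badᶜ := by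
      have := measure_union_le (μ := P) Bad Badᶜ
      rwa [union_compl_self, measure_univ] at this
    have h8 : ENNReal.ofReal (T ^ (-δ)) ≤ ENNReal.ofReal (1 / 2) := by
      refine ENNReal.ofReal_le_ofReal ?_
      rw [Real.rpow_neg hT0.le, e1, one_div]
      exact inv_anti₀ (by norm_num) (by nlinarith)
    refine h8.trans ?_
    by_contra hcon
    push Not at hcon
    have h9 : P Bad + P Badᶜ < ENNReal.ofReal (1 / 2) + ENNReal.ofReal (1 / 2) :=
      ENNReal.add_lt_add_of_le_of_lt (measure_ne_top _ _) h6 hcon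
    rw [← ENNReal.ofReal_add (by norm_num) (by norm_num)] at h9
    norm_num at h9
    exact absurd h7 (not_le.2 h9)

lemma lindelof_of (H : Pers L C) {A c : ℝ} (hA : 0 < A) (hc : 0 < c) (hm : MeanLindelof L C A c)
    (hw : WeakSampling L C A) : Lindelof L C := by
  by_contra hcon
  obtain ⟨κ, δ₀, hκ, hδ₀, hbig⟩ := H.large hcon
  set a : ℝ := max 1 (1 / A) with ha
  have ha1 : 1 ≤ a := le_max_left _ _
  have ha2 : 1 / A ≤ a := le_max_right _ _
  have ha0 : 0 < a := by linarith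
  set e : ℝ := κ / a with he
  have he0 : 0 < e := by positivity
  set δ : ℝ := e * c / 16 with hδ
  have hδ0 : 0 < δ := by positivity
  obtain ⟨B, hB⟩ := hm (e * c / 8) (by positivity)
  obtain ⟨k, hk, T₀, hT₀⟩ := hw δ hδ0 (4 * (1 + δ) / e)
  have hk0 : 0 < k := lt_of_lt_of_le (by positivity) hk
  have hek : 4 * (1 + δ) ≤ e * k := by
    rw [div_le_iff₀ he0] at hk
    linarith
  have htop : Tendsto (fun T : ℝ => (δ₀ / 4) ^ (c / k) * T ^ (e * c / 2)) atTop atTop :=
    (tendsto_rpow_atTop (by positivity)).const_mul_atTop (by positivity)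
  obtain ⟨T₁, hT₁⟩ := eventually_atTop.1 ((htop.eventually_gt_atTop B).and
    ((eventually_ge_atTop T₀).and (eventually_ge_atTop (4 / δ₀))))
  obtain ⟨i, t, hR, hvol⟩ := hbig ((max T₁ 1) ^ (1 + A))
  set X : ℝ := (1 + |t|) * C i with hX
  set T : ℝ := max (1 + |t|) ((C i) ^ (1 / A)) with hT
  have hC1 := H.one i
  have hC0 : 0 < C i := by linarith
  have ht1 : 1 ≤ 1 + |t| := by linarith [abs_nonneg t]
  have hTa : 1 + |t| ≤ T := le_max_left _ _
  have hTb : (C i) ^ (1 / A) ≤ T := le_max_right _ _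
  have hT1 : 1 ≤ T := ht1.trans hTa
  have hT0 : 0 < T := by linarith
  have hCT : C i ≤ T ^ A := by
    have h1 := Real.rpow_le_rpow (by positivity) hTb hA.le
    rwa [← Real.rpow_mul hC0.le, one_div_mul_cancel hA.ne', Real.rpow_one] at h1
  have hXT : X ≤ T ^ (1 + A) := by
    rw [Real.rpow_add hT0, Real.rpow_one]
    exact mul_le_mul hTa hCT hC0.le hT0.le
  have hX1 : 1 ≤ X := by
    rw [hX]
    nlinarith
  have hX0 : 0 < X := by linarith
  have hTT : T₁ ≤ T := by
    by_contra hlt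
    push Not at hlt
    have h1 : T ^ (1 + A) ≤ (max T₁ 1) ^ (1 + A) :=
      Real.rpow_le_rpow hT0.le (hlt.le.trans (le_max_left _ _)) (by linarith)
    linarith
  have hTX : T ≤ X ^ a := by
    refine max_le ?_ ?_
    · have h1 : 1 + |t| ≤ X := by rw [hX]; nlinarith
      have h2 : X ^ (1 : ℝ) ≤ X ^ a := Real.rpow_le_rpow_of_exponent_le hX1 ha1
      rw [Real.rpow_one] at h2
      linarith
    · have h1 : C i ≤ X := by rw [hX]; nlinarith
      exact (Real.rpow_le_rpow hC0.le h1 (by positivity)).trans (Real.rpow_le_rpow_of_exponent_le hX1 ha2)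
  have hTe : T ^ e ≤ X ^ κ := by
    have h1 := Real.rpow_le_rpow hT0.le hTX he0.le
    rwa [← Real.rpow_mul hX0.le, he, mul_div_cancel₀ _ ha0.ne'] at h1
  obtain ⟨hBT, hTT0, hT4⟩ := hT₁ T hTT
  have hT4' : 1 ≤ δ₀ / 4 * T := by
    rw [div_le_iff₀ hδ₀] at hT4
    linarith
  -- the moment is large
  have hM : δ₀ / 2 * T ^ (e * k - 1) ≤ M L i k T := by
    have h1 := low (f := fun x : ℝ => ‖L i (1 / 2 + x * Complex.I)‖ ^ k) (pow_cont H i hk0)
      (fun x => by positivity) hT0 (y := T ^ (e * k)) (by positivity) (a := δ₀)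
      (S := {x : ℝ | |x - t| ≤ 1 ∧ X ^ κ ≤ ‖L i (1 / 2 + x * Complex.I)‖}) ?_ hvol
    · unfold M
      rw [le_div_iff₀ (by linarith)]
      have h2 : T ^ (e * k - 1) * T = T ^ (e * k) := by
        rw [← Real.rpow_add_one hT0.ne']
        congr 1
        ring
      calc δ₀ / 2 * T ^ (e * k - 1) * (2 * T) = δ₀ * (T ^ (e * k - 1) * T) := by ring
        _ = T ^ (e * k) * δ₀ := by rw [h2]; ring
        _ ≤ _ := h1
    · rintro x ⟨hx1, hx2⟩
      refine ⟨?_, ?_⟩
      · change T ^ (e * k) ≤ ‖L i (1 / 2 + x * Complex.I)‖ ^ k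
        rw [Real.rpow_mul hT0.le]
        exact Real.rpow_le_rpow (by positivity) (hTe.trans hx2) hk0.le
      · have h2 : |x| ≤ T := by
          have h3 : |x| ≤ |x - t| + |t| := by
            have := abs_add_le (x - t) t
            simpa using this
          linarith
        exact abs_le.1 h2
  obtain ⟨N, hN1, hN2, Ω, mΩ, P, hPp, V, hV, hP⟩ := hT₀ i T hTT0 hCT
  have hNR : (1 : ℝ) ≤ N := by exact_mod_cast hN1
  have hN0 : (0 : ℝ) < N := by linarith
  set Y : ℝ := T ^ (-δ) * M L i k T / 2 with hY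
  have hYlow : δ₀ / 4 * T ^ (e * k - 1 - δ) ≤ Y := by
    have h1 : T ^ (e * k - 1 - δ) = T ^ (-δ) * T ^ (e * k - 1) := by
      rw [← Real.rpow_add hT0]
      congr 1
      ring
    rw [h1, hY]
    have h2 := mul_le_mul_of_nonneg_left hM (show 0 ≤ T ^ (-δ) by positivity)
    calc δ₀ / 4 * (T ^ (-δ) * T ^ (e * k - 1)) = T ^ (-δ) * (δ₀ / 2 * T ^ (e * k - 1)) / 2 := by ring
      _ ≤ _ := by linarith
  have hY1 : 1 ≤ Y := by
    refine le_trans ?_ hYlow
    have h1 : T ^ (1 : ℝ) ≤ T ^ (e * k - 1 - δ) := Real.rpow_le_rpow_of_exponent_le hT1 (by linarith)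
    rw [Real.rpow_one] at h1
    exact hT4'.trans (mul_le_mul_of_nonneg_left h1 (by positivity))
  have hY0 : 0 < Y := by linarith
  set f : ℝ → ℝ := fun x => ‖L i (1 / 2 + x * Complex.I)‖ with hf
  set S : Set ℝ := {x | Y ≤ f x ^ k} with hS
  have hSm : MeasurableSet S := measurableSet_le measurable_const (pow_cont H i hk0).measurable
  have hsub : {ω | M L i k T ≤ T ^ δ * (1 + E L i k (fun j => V j ω))} ⊆ ⋃ j, {ω | V j ω ∈ S} := by
    intro ω hω
    by_contra hno
    have hno' : ∀ j, f (V j ω) ^ k < Y := by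
      intro j
      by_contra hge
      push Not at hge
      exact hno (mem_iUnion.2 ⟨j, hge⟩)
    have hω' : M L i k T ≤ T ^ δ * (1 + E L i k (fun j => V j ω)) := hω
    have hE : E L i k (fun j => V j ω) < Y := by
      unfold E
      rw [div_lt_iff₀ hN0]
      have hne : (Finset.univ : Finset (Fin N)).Nonempty := ⟨⟨0, hN1⟩, Finset.mem_univ _⟩
      have h1 := Finset.sum_lt_sum_of_nonempty hne (fun j _ => hno' j)
      simp only [Finset.sum_const, Finset.card_univ, Fintype.card_fin, nsmul_eq_mul] at h1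
      linarith
    have h2 : M L i k T = T ^ δ * (2 * Y) := by
      rw [hY]
      have h3 : T ^ δ * T ^ (-δ) = 1 := by rw [← Real.rpow_add hT0]; simp
      calc M L i k T = (T ^ δ * T ^ (-δ)) * M L i k T := by rw [h3, one_mul]
        _ = _ := by ring
    have h4 : 0 < T ^ δ := by positivity
    have h5 : T ^ δ * (1 + E L i k (fun j => V j ω)) < T ^ δ * (2 * Y) :=
      mul_lt_mul_of_pos_left (by linarith) h4
    linarith
  have hprob : ENNReal.ofReal (T ^ (-δ)) ≤ N * ((ENNReal.ofReal (2 * T))⁻¹ * volume (S ∩ Icc (-T) T)) := by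
    refine hP.trans ((measure_mono hsub).trans ((measure_iUnion_fintype_le _ _).trans (le_of_eq ?_)))
    rw [Finset.sum_congr rfl fun j _ => unif_prob hV j hSm]
    simp
  have hvfin : volume (S ∩ Icc (-T) T) ≠ ⊤ :=
    ne_top_of_le_ne_top (by rw [Real.volume_Icc]; exact ENNReal.ofReal_ne_top) (measure_mono inter_subset_right)
  set v : ℝ := (volume (S ∩ Icc (-T) T)).toReal with hv
  have hv0 : 0 ≤ v := ENNReal.toReal_nonneg
  have hv1 : T ^ (-δ) ≤ N * (v / (2 * T)) := by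
    have h1 : (N : ENNReal) * ((ENNReal.ofReal (2 * T))⁻¹ * volume (S ∩ Icc (-T) T)) =
        ENNReal.ofReal (N * (v / (2 * T))) := by
      rw [← ENNReal.ofReal_toReal hvfin, ← hv, ← ENNReal.ofReal_inv_of_pos (by linarith),
        ← ENNReal.ofReal_mul (by positivity), ← ENNReal.ofReal_natCast, ← ENNReal.ofReal_mul (by positivity)]
      congr 1
      field_simp
    rw [h1] at hprob
    exact (ENNReal.ofReal_le_ofReal_iff (by positivity)).1 hprob
  have hv2 : 2 * T * T ^ (-(2 * δ)) ≤ v := by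
    have h1 : N * (v / (2 * T)) ≤ T ^ δ * (v / (2 * T)) := mul_le_mul_of_nonneg_right hN2 (by positivity)
    have h2 : T ^ (-(2 * δ)) = T ^ (-δ) * T ^ (-δ) := by rw [← Real.rpow_add hT0]; congr 1; ring
    have h3 : T ^ (-δ) * T ^ δ = 1 := by rw [← Real.rpow_add hT0]; simp
    have h4 : T ^ (-δ) * T ^ (-δ) ≤ T ^ (-δ) * (T ^ δ * (v / (2 * T))) :=
      mul_le_mul_of_nonneg_left (hv1.trans h1) (by positivity)
    rw [← mul_assoc, h3, one_mul, ← h2, le_div_iff₀ (by linarith)] at h4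
    linarith
  have hmean : Y ^ (c / k) * T ^ (-(2 * δ)) ≤ M L i c T := by
    have h1 := low (f := fun x : ℝ => ‖L i (1 / 2 + x * Complex.I)‖ ^ c) (pow_cont H i hc)
      (fun x => by positivity) hT0 (y := Y ^ (c / k)) (by positivity) (a := v)
      (S := S ∩ Icc (-T) T) ?_ (by rw [hv, ENNReal.ofReal_toReal hvfin])
    · unfold M
      rw [le_div_iff₀ (by linarith)]
      calc Y ^ (c / k) * T ^ (-(2 * δ)) * (2 * T) = Y ^ (c / k) * (2 * T * T ^ (-(2 * δ))) := by ring
        _ ≤ Y ^ (c / k) * v := mul_le_mul_of_nonneg_left hv2 (by positivity)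
        _ ≤ _ := h1
    · rintro x ⟨hx1, hx2⟩
      refine ⟨?_, hx2⟩
      change Y ^ (c / k) ≤ f x ^ c
      have h2 := Real.rpow_le_rpow hY0.le hx1 (show 0 ≤ c / k by positivity)
      rwa [← Real.rpow_mul (norm_nonneg _), mul_div_cancel₀ _ hk0.ne'] at h2
  have hup := hB i T hT1 hCT
  have hlow : (δ₀ / 4) ^ (c / k) * T ^ (3 * (e * c) / 4) ≤ Y ^ (c / k) := by
    have h1 := Real.rpow_le_rpow (by positivity) hYlow (show 0 ≤ c / k by positivity)
    refine le_trans ?_ h1
    rw [Real.mul_rpow (by positivity) (by positivity), ← Real.rpow_mul hT0.le]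
    refine mul_le_mul_of_nonneg_left (Real.rpow_le_rpow_of_exponent_le hT1 ?_) (by positivity)
    have h2 : (e * k - 1 - δ) * (c / k) = e * c - (1 + δ) * c / k := by field_simp; ring
    have h3 : (1 + δ) * c / k ≤ e * c / 4 := by
      rw [div_le_iff₀ hk0]
      nlinarith
    rw [h2]
    linarith
  have hfin : (δ₀ / 4) ^ (c / k) * T ^ (e * c / 2) ≤ B := by
    have h1 : (δ₀ / 4) ^ (c / k) * T ^ (3 * (e * c) / 4) * T ^ (-(2 * δ)) ≤ B * T ^ (e * c / 8) :=
      (mul_le_mul_of_nonneg_right hlow (by positivity)).trans (hmean.trans hup)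
    have h2 : T ^ (3 * (e * c) / 4) * T ^ (-(2 * δ)) = T ^ (e * c / 2) * T ^ (e * c / 8) := by
      rw [← Real.rpow_add hT0, ← Real.rpow_add hT0]
      congr 1
      rw [hδ]
      ring
    rw [mul_assoc, h2, ← mul_assoc] at h1
    exact le_of_mul_le_mul_right h1 (by positivity)
  linarith

lemma pers_fam (hC : ∀ i, 1 ≤ C i) (H : Pool.Agent.H983R4.GL.Fam L (fun i t => (1 + |t|) * C i)) : Pers L C where
  one := hC
  cont := Pool.Agent.Q231.RS.line_cont H
  large := by
    intro hcon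
    unfold Lindelof at hcon
    push Not at hcon
    obtain ⟨ε, hε, hbig⟩ := hcon
    obtain ⟨p, C', hp, hC', hcr⟩ := Pool.Agent.Q231.RS.crude_line H
    obtain ⟨δ, hδ, X₀, hper⟩ := H.persist (κ := ε / 2) (μ := ε) (by positivity) (by linarith)
    refine ⟨ε / 2, δ, by positivity, hδ, fun R => ?_⟩
    set R' : ℝ := max (max R X₀) 0 with hR'
    have hR0 : 0 ≤ R' := le_max_right _ _
    obtain ⟨i, t, h⟩ := hbig (Real.exp C' * R' ^ p + 1)
    have hX1 : 1 ≤ (1 + |t|) * C i := H.one i t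
    have hXe : 1 ≤ ((1 + |t|) * C i) ^ ε := Real.one_le_rpow hX1 hε.le
    have hjp : 0 ≤ Real.exp C' * R' ^ p := by positivity
    have hRX : R' < (1 + |t|) * C i := by
      by_contra hle
      push Not at hle
      have h1 : ‖L i (1 / 2 + t * Complex.I)‖ ≤ Real.exp C' * ((1 + |t|) * C i) ^ p := hcr i t
      have h2 : ((1 + |t|) * C i) ^ p ≤ R' ^ p := Real.rpow_le_rpow (by linarith) hle hp.le
      have h3 : Real.exp C' * ((1 + |t|) * C i) ^ p ≤ Real.exp C' * R' ^ p :=
        mul_le_mul_of_nonneg_left h2 (Real.exp_pos _).le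
      nlinarith
    have hLbig : ((1 + |t|) * C i) ^ ε ≤ ‖L i (1 / 2 + t * Complex.I)‖ := by nlinarith
    refine ⟨i, t, lt_of_le_of_lt ((le_max_left _ _).trans (le_max_left _ _)) hRX, ?_⟩
    have h4 := hper i t (((le_max_right R X₀).trans (le_max_left _ _)).trans hRX.le) hLbig 1 one_pos le_rfl
    rw [mul_one] at h4
    refine h4.le.trans (measure_mono ?_)
    rintro x ⟨hx1, hx2⟩
    exact ⟨hx1, hx2.le⟩

lemma pers_zeta : Pers (fun _ : Unit => riemannZeta) (fun _ => 1) where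
  one := fun _ => le_rfl
  cont := fun _ => Pool.Agent.H983R4.LH.zeta_line_cont.norm
  large := by
    intro hcon
    have hadm : ¬ Pool.Agent.H983R4.LH.Adm 0 := by
      intro h
      refine hcon fun ε hε => ?_
      obtain ⟨B, hB⟩ := h ε hε
      refine ⟨B, fun _ t => ?_⟩
      have := hB t
      rw [zero_add] at this
      simpa using this
    obtain ⟨ε, hε, hbig⟩ := Pool.Agent.Q231.RS.large_of_not hadm le_rfl
    rw [zero_add] at hbig
    obtain ⟨δ, hδ, T₀, h8, hper⟩ := Pool.Agent.H983R4.LH.main_local (κ := ε / 2) (μ := ε) (by positivity) (by linarith)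
    refine ⟨ε / 4, δ, by positivity, hδ, fun R => ?_⟩
    obtain ⟨T, hT, hZ⟩ := hbig (max R T₀)
    have hTR : R < T := lt_of_le_of_lt (le_max_left _ _) hT
    have hT8 : 8 ≤ T := h8.trans ((le_max_right R T₀).trans hT.le)
    have hT0 : 0 < T := by linarith
    refine ⟨(), T, ?_, ?_⟩
    · rw [abs_of_pos hT0]
      linarith
    · have h4 := hper T ((le_max_right R T₀).trans hT.le) 1 one_pos le_rfl hZ
      rw [mul_one] at h4
      refine h4.le.trans (measure_mono ?_)
      rintro x ⟨hx1, hx2⟩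
      refine ⟨hx1, le_trans ?_ hx2.le⟩
      rw [abs_of_pos hT0, mul_one]
      have h5 : 1 + T ≤ T ^ (2 : ℝ) := by
        rw [Real.rpow_two]
        nlinarith
      have h6 := Real.rpow_le_rpow (by linarith) h5 (show 0 ≤ ε / 4 by positivity)
      rwa [← Real.rpow_mul hT0.le, show 2 * (ε / 4) = ε / 2 by ring] at h6

/-- the fourth moment of zeta -/
lemma zeta_mean (A : ℝ) : MeanLindelof (fun _ : Unit => riemannZeta) (fun _ => 1) A 4 := by
  intro ε hε
  set f : ℝ → ℝ := fun t => ‖riemannZeta (1 / 2 + t * Complex.I)‖ ^ (4 : ℝ) with hf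
  have hfc : Continuous f := Pool.Agent.H983R4.LH.zeta_line_cont.norm.rpow_const fun _ => Or.inr (by norm_num)
  have hf0 : ∀ t, 0 ≤ f t := fun t => by positivity
  have hpt : ∀ t : ℝ, Pool.Agent.TH158.FM.pt (1 / 2) t = 1 / 2 + (t : ℂ) * Complex.I :=
    Pool.Agent.TH158.FM.pt_half
  have heven : ∀ t, f (-t) = f t := by
    intro t
    have h1 := Pool.Agent.TH158.FM.zeta_even t
    rw [hpt, hpt] at h1
    simp only [hf]
    rw [h1]
  have hsplit : ∀ T : ℝ, ∫ t in (-T)..T, f t = 2 * ∫ t in (0 : ℝ)..T, f t := by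
    intro T
    rw [← intervalIntegral.integral_add_adjacent_intervals (hfc.intervalIntegrable (-T) 0)
      (hfc.intervalIntegrable 0 T)]
    have h1 : ∫ t in (-T)..0, f t = ∫ t in (0 : ℝ)..T, f t := by
      have h2 := intervalIntegral.integral_comp_neg (f := f) (a := 0) (b := T)
      simp only [neg_zero] at h2
      rw [← h2]
      exact intervalIntegral.integral_congr fun t _ => heven t
    rw [h1]
    ring
  refine ⟨(4 / ε) ^ 4 + ∫ t in (0 : ℝ)..1000, f t, fun i T hT _ => ?_⟩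
  have hT0 : 0 < T := by linarith
  have hI0 : 0 ≤ ∫ t in (0 : ℝ)..1000, f t := intervalIntegral.integral_nonneg (by norm_num) fun t _ => hf0 t
  have hTe : 1 ≤ T ^ ε := Real.one_le_rpow hT hε.le
  have hMe : M (fun _ : Unit => riemannZeta) i 4 T = (∫ t in (0 : ℝ)..T, f t) / T := by
    unfold M
    change (∫ t in (-T)..T, f t) / (2 * T) = _
    rw [hsplit]
    field_simp
  rw [hMe]
  rcases le_total 1000 T with h | h
  · have h1 := Pool.Agent.TH158.FM.fourth_all T h
    have h2 : ∫ t in (0 : ℝ)..T, f t = ∫ t in (0 : ℝ)..T, ‖riemannZeta (Pool.Agent.TH158.FM.pt (1 / 2) t)‖ ^ 4 := by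
      refine intervalIntegral.integral_congr fun t _ => ?_
      simp only [hf, hpt]
      rw [← Real.rpow_natCast]
      norm_num
    have h3 : Real.log T ≤ T ^ (ε / 4) / (ε / 4) := Real.log_le_rpow_div hT0.le (by positivity)
    have h4 : 0 ≤ Real.log T := Real.log_nonneg hT
    have h5 : Real.log T ^ 4 ≤ (4 / ε) ^ 4 * T ^ ε := by
      refine (pow_le_pow_left₀ h4 h3 4).trans (le_of_eq ?_)
      rw [div_pow, ← Real.rpow_natCast (T ^ (ε / 4)), ← Real.rpow_mul hT0.le]
      norm_num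
      field_simp
    rw [h2, div_le_iff₀ hT0]
    refine h1.trans ?_
    have h6 : 0 ≤ Real.log T ^ 4 := by positivity
    calc 4 / 5 * (T * Real.log T ^ 4) ≤ 1 * (T * Real.log T ^ 4) :=
          mul_le_mul_of_nonneg_right (by norm_num) (by positivity)
      _ = Real.log T ^ 4 * T := by ring
      _ ≤ ((4 / ε) ^ 4 * T ^ ε) * T := mul_le_mul_of_nonneg_right h5 hT0.le
      _ ≤ _ := by
        refine mul_le_mul_of_nonneg_right ?_ hT0.le
        refine mul_le_mul_of_nonneg_right ?_ (by positivity)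
        linarith
  · have h1 : ∫ t in (0 : ℝ)..T, f t ≤ ∫ t in (0 : ℝ)..1000, f t := by
      refine intervalIntegral.integral_mono_interval le_rfl hT0.le h (Eventually.of_forall hf0)
        (hfc.intervalIntegrable _ _)
    have h2 : 0 ≤ ∫ t in (0 : ℝ)..T, f t := intervalIntegral.integral_nonneg hT0.le fun t _ => hf0 t
    have h3 : (∫ t in (0 : ℝ)..T, f t) / T ≤ ∫ t in (0 : ℝ)..T, f t := div_le_self h2 hT
    have h4 : (0 : ℝ) ≤ (4 / ε) ^ 4 := by positivity
    nlinarith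

end proofs

/-- For every `A > 0`: the Lindelöf bound for the family is equivalent to the Lindelöf bound for one mean value together
with the weak form of random sampling, and to all mean values together with the strong form. -/
def Equivalent {ι : Type} (L : ι → ℂ → ℂ) (C : ι → ℝ) : Prop :=
  ∀ A : ℝ, 0 < A →
    (Lindelof L C ↔ (∀ c : ℝ, 0 < c → MeanLindelof L C A c) ∧ Sampling L C A) ∧
    (Lindelof L C ↔ (∃ c : ℝ, 0 < c ∧ MeanLindelof L C A c) ∧ WeakSampling L C A)

theorem equivalent_of {ι : Type} {L : ι → ℂ → ℂ} {C : ι → ℝ} (H : Pers L C) : Equivalent L C := by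
  intro A hA
  refine ⟨⟨fun h => ⟨fun c hc => mean_of H h hA hc, sampling_of H h hA⟩, fun h => ?_⟩,
    ⟨fun h => ⟨⟨2, two_pos, mean_of H h hA two_pos⟩, weak_of (sampling_of H h hA)⟩, fun h => ?_⟩⟩
  · exact lindelof_of H hA two_pos (h.1 2 two_pos) (weak_of h.2)
  · obtain ⟨⟨c, hc, hm⟩, hw⟩ := h
    exact lindelof_of H hA hc hm hw

/-- **Grand Lindelöf and Monte Carlo.** -/
theorem result :
    (∀ (ι : Type) (m : ℕ) (D : ι → Datum m), 1 ≤ m → (∀ i, (D i).Ok) → Molteni D →
      Equivalent (fun i => (D i).f) (fun i => (D i).C)) ∧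
    (∀ (ι : Type) (q : ι → ℕ) [∀ i, NeZero (q i)] (χ : (i : ι) → DirichletCharacter ℂ (q i)),
      (∀ i, 1 < q i ∧ (χ i).IsPrimitive) →
      Equivalent (fun i => DirichletCharacter.LFunction (χ i)) (fun i => (q i : ℝ))) ∧
    (∀ A : ℝ, 0 < A →
      (Lindelof (fun _ : Unit => riemannZeta) (fun _ => 1) ↔ Sampling (fun _ : Unit => riemannZeta) (fun _ => 1) A) ∧
      (Lindelof (fun _ : Unit => riemannZeta) (fun _ => 1) ↔
        WeakSampling (fun _ : Unit => riemannZeta) (fun _ => 1) A)) := by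
  refine ⟨fun ι m D hm hD hM => equivalent_of (pers_fam ?_ ?_), fun ι q _ χ h => equivalent_of (pers_fam ?_ ?_),
    fun A hA => ⟨⟨fun h => sampling_of pers_zeta h hA, fun h => ?_⟩,
      ⟨fun h => weak_of (sampling_of pers_zeta h hA), fun h => ?_⟩⟩⟩
  · exact fun i => (D i).C_one (hD i).N_pos
  · refine Pool.Agent.H983R4.GL.Fam.of_afam (p := m)
      (PersistentLargeValues.afam_gl hm hD hM) (by exact_mod_cast hm) ?_ fun _ _ => rfl
    intro i t
    have h1 := (D i).C_one (hD i).N_pos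
    nlinarith [abs_nonneg t]
  · exact fun i => by exact_mod_cast (h i).1.le
  · have h1 := PersistentLargeValues.Fam.comp PersistentLargeValues.fam_dir
      (fun i => (⟨q i, (h i).1, χ i, (h i).2, trivial⟩ : H855R2.SF.DC (fun _ _ => True)))
    have h2 : (fun (i : ι) (t : ℝ) => (1 + |t|) * (q i : ℝ)) = fun (i : ι) (t : ℝ) => (q i : ℝ) * (1 + |t|) := by
      funext i t
      ring
    rw [h2]
    exact h1
  · exact lindelof_of pers_zeta hA four_pos (zeta_mean A) (weak_of h)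
  · exact lindelof_of pers_zeta hA four_pos (zeta_mean A) h

end Pool.Agent.Results.MP_52e316_nt.MonteCarlo
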