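import Mathlib
import Pool.Agent.Q30.OS.Fwd

/-!
# The Grand Lindelöf Hypothesis for `GL(m)` and one-sided bounds for means of `log |L|`

`π` runs through the L-functions of cuspidal automorphic representations of `GL_m(𝔸_ℚ)` (`CuspidalL m`),
`C_π = N ∏ (1 + |μ_j|)` is the analytic conductor, `C_π(t) = N ∏ (1 + |i t - μ_j|)` the analytic conductor
at the height `t`.  Let `ν` be a finite measure on a bounded part of the half plane `Re s ≥ 1/2` which
charges every strip `Re s < 1/2 + δ`; for example the length on a segment of the critical line, or on a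
horizontal segment that starts at the critical line, or the area of a rectangle or of a half disc.

Theorem.  (1) A large value forces a large mean of `log |L|`, with its negative part included, nearby: for
`κ > 0` there are `a > 0` and `R` such that `|L(1/2 + i t, π)| ≥ C_π(t)^κ` implies
`∫ log |L(s + i T, π)| dν(s) ≥ a log C_π(t)` for some `T` with `|T - t| ≤ R`, once `C_π(t)` is large.
(2) For every set `P` of `π`: the Grand Lindelöf Hypothesis holds on `P` if and only if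
`∫ log |L(s + i t, π)| dν(s) ≤ ε log C_π(t)` for every `ε > 0` and `C_π(t)` large, uniformly on `P`.
(3), (4) The cases of the segments `[1/2 + i t, 1/2 + i (t + h)]` and `[1/2 + i t, 1/2 + h + i t]`.

The means are one-sided: near the critical line the zeros of `L` make `log |L|` very negative and nothing is
assumed about the size of this negative part.  The proof (modules `Pool.Agent.Q30.OS`) shows that
one-sided bounds give few zeros off the critical line: in a limit of a sequence of counterexamples the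
function `log |L| / log C_π` becomes subharmonic and nonpositive near the critical line and zero on
the right, and Green's identity excludes a zero mass.  The analytic tools for `CuspidalL` are the modules
`Pool.Agent.W169.HF` (project of helper169) of the starting library and `Pool.Agent.Q27.SZ`.
-/

set_option autoImplicit false

open Complex MeasureTheory Set
open scoped ComplexConjugate

namespace Pool.Agent.Results.MP_52e316_nt.OneSidedMeans

/-- Analytic data of a cuspidal automorphic representation of `GL_m(𝔸_ℚ)` (not the trivial one for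
`m = 1`), normalised as in the problem: conductor `N`, archimedean parameters `μ_j` with
`Re μ_j ≤ 1/2 - 1/(m² + 1)` (Luo-Rudnick-Sarnak) and `∑ Im μ_j = 0` (the central character is trivial on
the positive reals), Satake parameters `|α_j(p)| ≤ √p`, root number `ε`, and the entire completed L-function
`Λ` (gamma factors times Euler product for `Re s > 3/2`) with the functional equation, finite order in
vertical strips and no zeros in `Re s > 1` (all known: Godement-Jacquet, Jacquet-Shalika). -/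
structure CuspidalL (m : ℕ) where
  /-- the conductor -/
  N : ℝ
  /-- the archimedean parameters -/
  μ : Fin m → ℂ
  /-- the Satake parameters -/
  α : Fin m → ℕ → ℂ
  /-- the root number -/
  ε : ℂ
  /-- the completed L-function -/
  Λ : ℂ → ℂ
  one_le : 1 ≤ N
  re_le : ∀ j, (μ j).re ≤ 1 / 2 - 1 / ((m : ℝ) ^ 2 + 1)
  normalised : ∑ j, (μ j).im = 0
  norm_le : ∀ j, ∀ p : ℕ, p.Prime → ‖α j p‖ ≤ Real.sqrt p
  norm_eq : ‖ε‖ = 1
  entire : Differentiable ℂ Λ
  euler : ∀ s : ℂ, 3 / 2 < s.re → Λ s = (∏ j, Gammaℝ (s - μ j)) *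
    ∏' p : Nat.Primes, ∏ j, (1 - α j p * (p : ℂ) ^ (-s))⁻¹
  fe : ∀ s : ℂ, Λ s = ε * (N : ℂ) ^ (1 / 2 - s) * conj (Λ (1 - conj s))
  bdd : ∀ a b : ℝ, ∃ M, ∀ s : ℂ, a ≤ s.re → s.re ≤ b → ‖Λ s‖ ≤ Real.exp (M * (1 + |s.im|))
  ne_zero : ∀ s : ℂ, 1 < s.re → Λ s ≠ 0

variable {m : ℕ}

/-- The L-function `L(s, π) = Λ(s, π) / ∏ Γ_ℝ(s - μ_j)`. -/
noncomputable def L (π : CuspidalL m) (s : ℂ) : ℂ := π.Λ s * ∏ j, (Gammaℝ (s - π.μ j))⁻¹

/-- The analytic conductor `C_π = N ∏ (1 + |μ_j|)`. -/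
noncomputable def C (π : CuspidalL m) : ℝ := π.N * ∏ j, (1 + ‖π.μ j‖)

/-- The analytic conductor at the height `t`: `C_π(t) = N ∏ (1 + |i t - μ_j|)`. -/
noncomputable def Ct (π : CuspidalL m) (t : ℝ) : ℝ := π.N * ∏ j, (1 + ‖(t : ℂ) * I - π.μ j‖)

/-- The Grand Lindelöf Hypothesis for the `π` in `P`. -/
def GLH (P : CuspidalL m → Prop) : Prop :=
  ∀ ε : ℝ, 0 < ε → ∃ B : ℝ, ∀ π : CuspidalL m, P π → ∀ t : ℝ,
    ‖L π (1 / 2 + (t : ℂ) * I)‖ ≤ B * ((1 + |t|) * C π) ^ ε

/-- `ν` is concentrated on a bounded part of the half plane `Re s ≥ 1/2` and charges every strip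
`Re s < 1/2 + δ`. -/
def IsKernel (ν : Measure ℂ) : Prop :=
  (∃ b : ℝ, ∀ᵐ s ∂ν, 1 / 2 ≤ s.re ∧ s.re ≤ b ∧ |s.im| ≤ b) ∧
    ∀ δ : ℝ, 0 < δ → 0 < ν {s : ℂ | s.re < 1 / 2 + δ}

/-- The mean `∫ log |L(s + i t, π)| dν(s)`. -/
noncomputable def mean (ν : Measure ℂ) (π : CuspidalL m) (t : ℝ) : ℝ :=
  ∫ s, Real.log ‖L π (s + (t : ℂ) * I)‖ ∂ν

open Pool.Agent.W169.HF Pool.Agent.Q30.OS

lemma std (π : CuspidalL m) : Std π.N π.μ π.α π.ε π.Λ :=
  ⟨{ one_le := π.one_le
     re_le := fun j => (π.re_le j).trans (sub_le_self _ (by positivity))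
     norm_le := fun j p hp => by
       rw [← Real.sqrt_eq_rpow]
       exact π.norm_le j p hp
     norm_eq := π.norm_eq
     entire := π.entire
     euler := fun s hs => π.euler s (by linarith)
     fe := π.fe
     bdd := π.bdd }, π.ne_zero⟩

/-- the class of tuples -/
def cls (P : CuspidalL m → Prop) : Cls m := fun N μ α e Λ =>
  ∃ π : CuspidalL m, P π ∧ π.N = N ∧ π.μ = μ ∧ π.α = α ∧ π.ε = e ∧ π.Λ = Λ

lemma rpow_exp {x : ℝ} (hx : 1 ≤ x) (a : ℝ) : x ^ a = Real.exp (a * Real.log x) := by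
  rw [Real.rpow_def_of_pos (by linarith), mul_comm]

lemma C_one (π : CuspidalL m) (t : ℝ) : 1 ≤ (1 + |t|) * C π := by
  have h1 : 1 ≤ ∏ j, (1 + ‖π.μ j‖) := by
    refine Finset.prod_induction _ (fun x => (1 : ℝ) ≤ x) (fun a b ha hb => ?_) le_rfl fun j _ => ?_
    · nlinarith
    · linarith [norm_nonneg (π.μ j)]
  have h2 : 1 ≤ C π := by
    unfold C
    have := π.one_le
    nlinarith
  have := abs_nonneg t
  nlinarith

lemma glh_to (hm : 1 ≤ m) (P : CuspidalL m → Prop) : GLH P ↔ SE (cls P) 0 := by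
  have hm' : (1 : ℝ) ≤ m := by exact_mod_cast hm
  constructor
  · intro h ε hε
    obtain ⟨B, HB⟩ := h (ε / (m + 2)) (by positivity)
    refine ⟨Real.log (max B 1), ?_⟩
    rintro N μ α e Λ ⟨π, hP, rfl, rfl, rfl, rfl, rfl⟩ _ y
    have hB : 0 < max B 1 := lt_max_of_lt_right one_pos
    refine (HB π hP y).trans ?_
    rw [rpow_exp (C_one π y), Real.exp_add, Real.exp_log hB]
    refine mul_le_mul (le_max_left _ _) (Real.exp_le_exp.2 ?_) (Real.exp_pos _).le hB.le
    have h1 := (cnd_norm π.one_le π.μ hm π.normalised y).1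
    change Real.log ((1 + |y|) * C π) ≤ _ at h1
    rw [div_mul_eq_mul_div, div_le_iff₀ (by positivity), zero_add]
    have h2 := mul_le_mul_of_nonneg_left h1 hε.le
    linarith
  · intro h ε hε
    obtain ⟨B, HB⟩ := h (ε / m) (by positivity)
    refine ⟨Real.exp B, fun π hP t => ?_⟩
    have h2 := HB π.N π.μ π.α π.ε π.Λ ⟨π, hP, rfl, rfl, rfl, rfl, rfl⟩ (std π) t
    refine h2.trans ?_
    rw [rpow_exp (C_one π t), ← Real.exp_add]
    apply Real.exp_le_exp.2
    have h1 := (cnd_norm π.one_le π.μ hm π.normalised t).2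
    change _ ≤ (m : ℝ) * Real.log ((1 + |t|) * C π) at h1
    have h3 : (0 + ε / m) * Real.log (cnd π.N π.μ t) ≤ ε * Real.log ((1 + |t|) * C π) := by
      rw [zero_add, div_mul_eq_mul_div, div_le_iff₀ (by positivity)]
      have h4 := mul_le_mul_of_nonneg_left h1 hε.le
      linarith
    linarith

/-- the measure in the coordinate `s - 1/2` -/
noncomputable def shf (ν : Measure ℂ) : Measure ℂ := ν.map fun s => s - 1 / 2

lemma shf_emb : MeasurableEmbedding fun s : ℂ => s - 1 / 2 :=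
  (Homeomorph.subRight (1 / 2 : ℂ)).measurableEmbedding

instance shf_fin (ν : Measure ℂ) [IsFiniteMeasure ν] : IsFiniteMeasure (shf ν) := by
  unfold shf; infer_instance

lemma shf_ae {ν : Measure ℂ} {b : ℝ} (h : ∀ᵐ s ∂ν, 1 / 2 ≤ s.re ∧ s.re ≤ b ∧ |s.im| ≤ b) :
    ∀ᵐ s ∂(shf ν), 0 ≤ s.re ∧ s.re ≤ |b| ∧ |s.im| ≤ |b| := by
  unfold shf
  rw [shf_emb.ae_map_iff]
  filter_upwards [h] with s hs
  have h1 := le_abs_self b
  have e1 : (s - 1 / 2 : ℂ).re = s.re - 1 / 2 := by simp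
  have e2 : (s - 1 / 2 : ℂ).im = s.im := by simp
  rw [e1, e2]
  exact ⟨by linarith [hs.1], by linarith [hs.2.1], by linarith [hs.2.2]⟩

lemma shf_pos {ν : Measure ℂ} (h : ∀ δ : ℝ, 0 < δ → 0 < ν {s : ℂ | s.re < 1 / 2 + δ}) :
    ∀ δ : ℝ, 0 < δ → 0 < (shf ν) {s : ℂ | s.re < δ} := by
  intro δ hδ
  unfold shf
  rw [shf_emb.map_apply]
  convert h δ hδ using 2
  ext s
  have e1 : (s - 1 / 2 : ℂ).re = s.re - 1 / 2 := by simp
  simp only [Set.mem_preimage, Set.mem_setOf_eq, e1]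
  constructor <;> intro h <;> linarith

lemma shf_int (ν : Measure ℂ) (π : CuspidalL m) (t : ℝ) :
    ∫ s, Real.log ‖LL π.μ π.Λ (1 / 2 + s + (t : ℂ) * I)‖ ∂(shf ν) = mean ν π t := by
  unfold shf mean
  rw [shf_emb.integral_map]
  congr 1
  funext s
  rw [show (1 / 2 + (s - 1 / 2) + (t : ℂ) * I : ℂ) = s + (t : ℂ) * I by ring]
  rfl

/-- the local theorem -/
theorem local_os (hm : 1 ≤ m) (ν : Measure ℂ) [IsFiniteMeasure ν] (hν : IsKernel ν) {κ : ℝ} (hκ : 0 < κ) :
    ∃ a R C₀ : ℝ, 0 < a ∧ ∀ π : CuspidalL m, ∀ t : ℝ, C₀ ≤ Ct π t →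
      Ct π t ^ κ ≤ ‖L π (1 / 2 + (t : ℂ) * I)‖ →
      ∃ T : ℝ, |T - t| ≤ R ∧ a * Real.log (Ct π t) ≤ mean ν π T := by
  obtain ⟨b, hb⟩ := hν.1
  have hm' : (1 : ℝ) ≤ m := by exact_mod_cast hm
  have hd : 0 < 1 / ((m : ℝ) ^ 2 + 1) := by positivity
  have hd1 : 1 / ((m : ℝ) ^ 2 + 1) ≤ 1 := by
    rw [div_le_iff₀ (by positivity)]
    nlinarith [sq_nonneg (m : ℝ)]
  obtain ⟨a, R, C0, ha, H⟩ := aut_os m hm (shf_ae hb) (shf_pos hν.2) (abs_nonneg b)
    (κ := κ / 2) (by positivity) hd hd1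
  refine ⟨a, R, max C0 2, ha, fun π t hC hL => ?_⟩
  by_contra hcon
  push Not at hcon
  have h1 : (2 : ℝ) ≤ Ct π t := (le_max_right _ _).trans hC
  have hlog : 0 < Real.log (Ct π t) := Real.log_pos (by linarith)
  have h2 := H π.N π.μ π.α π.ε π.Λ (std π).1 π.ne_zero π.re_le t ((le_max_left _ _).trans hC) (by
    intro T hT
    have h3 := hcon (t + T) (by rwa [add_sub_cancel_left])
    rw [← shf_int] at h3
    exact h3.le)
  have h3 : ‖L π (1 / 2 + (t : ℂ) * I)‖ ≤ Real.exp (κ / 2 * Real.log (Ct π t)) := h2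
  rw [rpow_exp (by linarith)] at hL
  have h4 := Real.exp_le_exp.1 (hL.trans h3)
  nlinarith

/-- the criterion -/
theorem glh_os (hm : 1 ≤ m) (ν : Measure ℂ) [IsFiniteMeasure ν] (hν : IsKernel ν) (P : CuspidalL m → Prop) :
    GLH P ↔ ∀ ε : ℝ, 0 < ε → ∃ C₀ : ℝ, ∀ π : CuspidalL m, P π → ∀ t : ℝ, C₀ ≤ Ct π t →
      mean ν π t ≤ ε * Real.log (Ct π t) := by
  have hm' : (1 : ℝ) ≤ m := by exact_mod_cast hm
  constructor
  · intro h ε hε
    obtain ⟨b, hb⟩ := hν.1
    obtain ⟨C0, H⟩ := os_fwd hm ((glh_to hm P).1 h) (shf_ae hb) (abs_nonneg b) hε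
    refine ⟨C0, fun π hP t hC => ?_⟩
    rw [← shf_int]
    exact H π.N π.μ π.α π.ε π.Λ ⟨π, hP, rfl, rfl, rfl, rfl, rfl⟩ (std π) t hC
  · intro h
    rw [glh_to hm]
    intro κ hκ
    obtain ⟨a, R, C0, ha, H⟩ := local_os hm ν hν hκ
    obtain ⟨B2, HT⟩ := aut_triv m hm
    obtain ⟨r, hr⟩ : ∃ r : ℝ, r = m * Real.log (1 + |R|) := ⟨_, rfl⟩
    have hr0 : 0 ≤ r := by
      rw [hr]
      exact mul_nonneg (Nat.cast_nonneg m) (Real.log_nonneg (by linarith [abs_nonneg R]))
    obtain ⟨C1, H1⟩ := h (a / 4) (by positivity)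
    obtain ⟨W, hW⟩ : ∃ W : ℝ, W = max (max C0 (|C1| * (1 + |R|) ^ m)) (Real.exp (r + 1)) := ⟨_, rfl⟩
    have hW1 : 1 ≤ W := by
      rw [hW]
      exact le_trans (Real.one_le_exp (by positivity)) (le_max_right _ _)
    refine ⟨max 0 (B2 + 3 / 4 * Real.log W), ?_⟩
    rintro N μ α e Λ ⟨π, hP, rfl, rfl, rfl, rfl, rfl⟩ hS t
    have hN := hS.1.one_le
    have hc := cnd_pos hN π.μ t
    have hL0 : 0 ≤ Real.log (cnd π.N π.μ t) := Real.log_nonneg hc
    by_cases hCW : W ≤ cnd π.N π.μ t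
    · have hC0 : C0 ≤ Ct π t := ((le_max_left _ _).trans (le_max_left _ _)).trans (hW ▸ hCW)
      have hC1 : |C1| * (1 + |R|) ^ m ≤ Ct π t :=
        ((le_max_right _ _).trans (le_max_left _ _)).trans (hW ▸ hCW)
      have hLr : r + 1 ≤ Real.log (cnd π.N π.μ t) := by
        have h1 : Real.exp (r + 1) ≤ cnd π.N π.μ t := (le_max_right _ _).trans (hW ▸ hCW)
        have h2 := Real.log_le_log (Real.exp_pos _) h1
        rwa [Real.log_exp] at h2
      by_contra hcon
      push Not at hcon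
      have h1 : Ct π t ^ κ ≤ ‖L π (1 / 2 + (t : ℂ) * I)‖ := by
        rw [rpow_exp (by exact hc)]
        refine le_trans (Real.exp_le_exp.2 ?_) hcon.le
        have := le_max_left 0 (B2 + 3 / 4 * Real.log W)
        change κ * Real.log (cnd π.N π.μ t) ≤ _
        linarith
      obtain ⟨T, hT, hT2⟩ := H π t hC0 h1
      have hT' : |T - t| ≤ |R| := hT.trans (le_abs_self R)
      have hsh := cndm_shift (N := π.N) (by linarith) π.μ hT'
      have hT'' : |t - T| ≤ |R| := by rw [abs_sub_comm]; exact hT'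
      have hC1T : C1 ≤ Ct π T := by
        have h6 : |C1| * (1 + |R|) ^ m ≤ cnd π.N π.μ T * (1 + |R|) ^ m := hC1.trans hsh
        exact (le_abs_self C1).trans (le_of_mul_le_mul_right h6 (by positivity))
      have h7 := H1 π hP T hC1T
      have h8 : Real.log (Ct π T) ≤ Real.log (cnd π.N π.μ t) + r := by
        have hlg' := logm_shift hN π.μ (y := T) (y' := t) (R := R) hT''
        rw [← hr] at hlg'
        exact hlg'
      have h9 : a * Real.log (cnd π.N π.μ t) ≤ a / 4 * (Real.log (cnd π.N π.μ t) + r) :=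
        hT2.trans (h7.trans (mul_le_mul_of_nonneg_left h8 (by positivity)))
      nlinarith
    · push Not at hCW
      refine (HT _ _ _ _ _ hS.1 t).trans (Real.exp_le_exp.2 ?_)
      have h1 := Real.log_le_log (by linarith) hCW.le
      have h2 := le_max_right 0 (B2 + 3 / 4 * Real.log W)
      have h3 : 0 ≤ (0 + κ) * Real.log (cnd π.N π.μ t) := by positivity
      linarith

/-- length on the segment `[1/2, 1/2 + i h]` of the critical line -/
noncomputable def vert (h : ℝ) : Measure ℂ :=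
  (volume.restrict (Icc (0 : ℝ) h)).map fun u : ℝ => (1 / 2 + (u : ℂ) * I : ℂ)

/-- length on the segment `[1/2, 1/2 + h]` -/
noncomputable def hori (h : ℝ) : Measure ℂ :=
  (volume.restrict (Icc (1 / 2 : ℝ) (1 / 2 + h))).map fun u : ℝ => (u : ℂ)

lemma vert_emb : MeasurableEmbedding fun u : ℝ => (1 / 2 + (u : ℂ) * I : ℂ) := by
  apply Continuous.measurableEmbedding (by fun_prop)
  intro x y h
  have := congrArg Complex.im h
  simpa using this

lemma hori_emb : MeasurableEmbedding fun u : ℝ => (u : ℂ) :=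
  Continuous.measurableEmbedding (by fun_prop) Complex.ofReal_injective

instance vert_fin (h : ℝ) : IsFiniteMeasure (vert h) := by
  unfold vert; infer_instance

instance hori_fin (h : ℝ) : IsFiniteMeasure (hori h) := by
  unfold hori; infer_instance

lemma vert_ker {h : ℝ} (hh : 0 < h) : IsKernel (vert h) := by
  constructor
  · refine ⟨max h 1, ?_⟩
    unfold vert
    rw [vert_emb.ae_map_iff]
    filter_upwards [ae_restrict_mem measurableSet_Icc] with u hu
    have e1 : (1 / 2 + (u : ℂ) * I : ℂ).re = 1 / 2 := by simp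
    have e2 : (1 / 2 + (u : ℂ) * I : ℂ).im = u := by simp
    rw [e1, e2, abs_of_nonneg hu.1]
    exact ⟨le_rfl, by linarith [le_max_right h 1], hu.2.trans (le_max_left _ _)⟩
  · intro δ hδ
    unfold vert
    rw [vert_emb.map_apply]
    have e : (fun u : ℝ => (1 / 2 + (u : ℂ) * I : ℂ)) ⁻¹' {s : ℂ | s.re < 1 / 2 + δ} = univ := by
      ext u
      simp [hδ]
    rw [e, Measure.restrict_apply_univ, Real.volume_Icc]
    simpa using hh

lemma hori_ker {h : ℝ} (hh : 0 < h) : IsKernel (hori h) := by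
  constructor
  · refine ⟨1 / 2 + h, ?_⟩
    unfold hori
    rw [hori_emb.ae_map_iff]
    filter_upwards [ae_restrict_mem measurableSet_Icc] with u hu
    rw [ofReal_re, ofReal_im, abs_zero]
    exact ⟨hu.1, hu.2, by linarith⟩
  · intro δ hδ
    unfold hori
    rw [hori_emb.map_apply]
    have e : Icc (1 / 2 : ℝ) (1 / 2 + min h (δ / 2)) ⊆
        (fun u : ℝ => (u : ℂ)) ⁻¹' {s : ℂ | s.re < 1 / 2 + δ} ∩ Icc (1 / 2 : ℝ) (1 / 2 + h) := by
      intro u hu
      constructor
      · simp only [Set.mem_preimage, Set.mem_setOf_eq, ofReal_re]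
        linarith [hu.2, min_le_right h (δ / 2)]
      · exact ⟨hu.1, by linarith [hu.2, min_le_left h (δ / 2)]⟩
    rw [Measure.restrict_apply' measurableSet_Icc]
    refine lt_of_lt_of_le ?_ (measure_mono e)
    rw [Real.volume_Icc]
    have : 0 < min h (δ / 2) := lt_min hh (by positivity)
    simpa using ⟨hh, hδ⟩

lemma vert_mean (π : CuspidalL m) (t : ℝ) {h : ℝ} (hh : 0 < h) :
    mean (vert h) π t = ∫ u in t..(t + h), Real.log ‖L π (1 / 2 + (u : ℂ) * I)‖ := by
  unfold mean vert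
  rw [vert_emb.integral_map, integral_Icc_eq_integral_Ioc, ← intervalIntegral.integral_of_le hh.le]
  have h1 := intervalIntegral.integral_comp_add_right (a := 0) (b := h)
    (fun u : ℝ => Real.log ‖L π (1 / 2 + (u : ℂ) * I)‖) t
  rw [zero_add, add_comm h t] at h1
  rw [← h1]
  congr 1
  funext u
  congr 3
  push_cast
  ring

lemma hori_mean (π : CuspidalL m) (t : ℝ) {h : ℝ} (hh : 0 < h) :
    mean (hori h) π t = ∫ σ in (1 / 2 : ℝ)..(1 / 2 + h), Real.log ‖L π ((σ : ℂ) + (t : ℂ) * I)‖ := by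
  unfold mean hori
  rw [hori_emb.integral_map, integral_Icc_eq_integral_Ioc,
    ← intervalIntegral.integral_of_le (by linarith)]

/-- **Main theorem.** Let `m ≥ 1` and let `ν` be a finite measure on a bounded part of `Re s ≥ 1/2` which
charges every strip `Re s < 1/2 + δ`.  (1) For `κ > 0` there are `a > 0` and `R` such that a value
`|L(1/2 + i t, π)| ≥ C_π(t)^κ` forces a mean `∫ log |L(s + i T, π)| dν(s) ≥ a log C_π(t)` with `|T - t| ≤ R`,
if `C_π(t)` is large.  (2) The Grand Lindelöf Hypothesis on a set `P` is equivalent to the one-sided bound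
`∫ log |L(s + i t, π)| dν(s) ≤ ε log C_π(t)` for all `ε > 0` and `C_π(t)` large, uniformly on `P`.
(3) The same for the means over the segments `[t, t + h]` of the critical line.  (4) The same for the means
over the horizontal segments from `1/2 + i t` to `1/2 + h + i t`. -/
theorem result (hm : 1 ≤ m) :
    (∀ (ν : Measure ℂ) [IsFiniteMeasure ν], IsKernel ν → ∀ κ : ℝ, 0 < κ → ∃ a R C₀ : ℝ, 0 < a ∧
      ∀ π : CuspidalL m, ∀ t : ℝ, C₀ ≤ Ct π t → Ct π t ^ κ ≤ ‖L π (1 / 2 + (t : ℂ) * I)‖ →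
      ∃ T : ℝ, |T - t| ≤ R ∧ a * Real.log (Ct π t) ≤ mean ν π T) ∧
    (∀ (ν : Measure ℂ) [IsFiniteMeasure ν], IsKernel ν → ∀ P : CuspidalL m → Prop,
      (GLH P ↔ ∀ ε : ℝ, 0 < ε → ∃ C₀ : ℝ, ∀ π : CuspidalL m, P π → ∀ t : ℝ, C₀ ≤ Ct π t →
        mean ν π t ≤ ε * Real.log (Ct π t))) ∧
    (∀ (h : ℝ), 0 < h → ∀ P : CuspidalL m → Prop,
      (GLH P ↔ ∀ ε : ℝ, 0 < ε → ∃ C₀ : ℝ, ∀ π : CuspidalL m, P π → ∀ t : ℝ, C₀ ≤ Ct π t →
        ∫ u in t..(t + h), Real.log ‖L π (1 / 2 + (u : ℂ) * I)‖ ≤ ε * Real.log (Ct π t))) ∧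
    (∀ (h : ℝ), 0 < h → ∀ P : CuspidalL m → Prop,
      (GLH P ↔ ∀ ε : ℝ, 0 < ε → ∃ C₀ : ℝ, ∀ π : CuspidalL m, P π → ∀ t : ℝ, C₀ ≤ Ct π t →
        ∫ σ in (1 / 2 : ℝ)..(1 / 2 + h), Real.log ‖L π ((σ : ℂ) + (t : ℂ) * I)‖ ≤
          ε * Real.log (Ct π t))) := by
  refine ⟨fun ν _ hν κ hκ => local_os hm ν hν hκ, fun ν _ hν P => glh_os hm ν hν P, fun h hh P => ?_,
    fun h hh P => ?_⟩
  · rw [glh_os hm (vert h) (vert_ker hh) P]
    simp only [vert_mean _ _ hh]
  · rw [glh_os hm (hori h) (hori_ker hh) P]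
    simp only [hori_mean _ _ hh]

end Pool.Agent.Results.MP_52e316_nt.OneSidedMeans
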