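import Pool.Agent.Q27.SZ3

/-!
# The Grand Lindelöf Hypothesis for `GL(m)` and the zeros of `ξ(s + a) + w ξ(s - a)`

`π` runs through the L-functions of cuspidal automorphic representations of `GL_m(𝔸_ℚ)` (`CuspidalL m`);
`C_π = N ∏ (1 + |μ_j|)` is the analytic conductor, `C_π(t) = N ∏ (1 + |i t - μ_j|)` the analytic conductor
at the height `t`, and `ξ_π(s) = N^(s/2) Λ(s, π)`.  For `a > 0` and `|w| = 1` let
`F(s) = ξ_π(s + a) + w ξ_π(s - a)`.  The zeros of `F` are symmetric about the critical line, and for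
`a ≥ 1/2` all of them lie on it.  Let `0 < a < 1/2` and let `P` be any set of `π` (for example all of them).

`FewZeros P a A` says: for all `w ∈ A` the number of zeros of `F` at distance at least `δ` (and at most a
constant) to the right of the critical line and with `|Im z - y| ≤ 1` is `o(log C_π(y))`, uniformly in
`π ∈ P`, `w ∈ A` and `y`, as `C_π(y) → ∞`.

Theorem.  (1) For `0 < a < 1/2` and two different `w₁`, `w₂` of modulus one the following are equivalent: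
the Lindelöf bound `L(s, π) ≪ C_π(Im s)^ε` for `π ∈ P` on all lines in `Re s > 1/2 + a`; `FewZeros P a A`
for the set `A` of all `w` with `|w| = 1`; `FewZeros P a {w₁, w₂}`.
(2) The Grand Lindelöf Hypothesis for `P` holds if and only if, for every `a` with `0 < a < 1/2`, the sum
`ξ_π(s + a) + ξ_π(s - a)` and the difference `ξ_π(s + a) - ξ_π(s - a)` have few zeros off the critical line.

For a single `a < 1/2` the conditions of (1) are also a uniform subconvex bound, with the exponent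
`a / 2` on the critical line.  Jensen's inequality and the three circles theorem with few zeros are applied
to `F`; the tools are those of the modules `Pool.Agent.W169.HF` (project of helper169) of the starting
library, where they are applied to the heat flow of `ξ_π`.
-/

set_option autoImplicit false

open Complex
open scoped ComplexConjugate

namespace Pool.Agent.Results.MP_52e316_nt.ShiftedSumZeros

/-- Analytic data of a cuspidal automorphic representation of `GL_m(𝔸_ℚ)` (not the trivial one for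
`m = 1`), normalised as in the problem: conductor `N`, archimedean parameters `μ_j` with `Re μ_j ≤ 1/2` and
`∑ Im μ_j = 0` (the central character is trivial on the positive reals), Satake parameters
`|α_j(p)| ≤ √p`, root number `ε`, and the entire completed L-function `Λ` (gamma factors times Euler product
for `Re s > 3/2`) with the functional equation, finite order in vertical strips and no zeros in
`Re s > 1` (all known: Godement-Jacquet, Jacquet-Shalika). -/
structure CuspidalL (m : ℕ) where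
  /-- the conductor -/
  N : ℝ
  /-- the archimedean parameters -/
  μ : Fin m → ℂ
  /-- the Satake parameters -/
  α : Fin m → ℕ → ℂ
  /-- the root number -/
  ε : ℂ
  /-- the completed L-function -/
  Λ : ℂ → ℂ
  one_le : 1 ≤ N
  re_le : ∀ j, (μ j).re ≤ 1 / 2
  normalised : ∑ j, (μ j).im = 0
  norm_le : ∀ j, ∀ p : ℕ, p.Prime → ‖α j p‖ ≤ Real.sqrt p
  norm_eq : ‖ε‖ = 1
  entire : Differentiable ℂ Λ
  euler : ∀ s : ℂ, 3 / 2 < s.re → Λ s = (∏ j, Gammaℝ (s - μ j)) *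
    ∏' p : Nat.Primes, ∏ j, (1 - α j p * (p : ℂ) ^ (-s))⁻¹
  fe : ∀ s : ℂ, Λ s = ε * (N : ℂ) ^ (1 / 2 - s) * conj (Λ (1 - conj s))
  bdd : ∀ a b : ℝ, ∃ M, ∀ s : ℂ, a ≤ s.re → s.re ≤ b → ‖Λ s‖ ≤ Real.exp (M * (1 + |s.im|))
  ne_zero : ∀ s : ℂ, 1 < s.re → Λ s ≠ 0

variable {m : ℕ}

/-- The L-function `L(s, π) = Λ(s, π) / ∏ Γ_ℝ(s - μ_j)`. -/
noncomputable def L (π : CuspidalL m) (s : ℂ) : ℂ := π.Λ s * ∏ j, (Gammaℝ (s - π.μ j))⁻¹

/-- The analytic conductor `C_π = N ∏ (1 + |μ_j|)`. -/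
noncomputable def C (π : CuspidalL m) : ℝ := π.N * ∏ j, (1 + ‖π.μ j‖)

/-- The analytic conductor at the height `t`: `C_π(t) = N ∏ (1 + |i t - μ_j|)`. -/
noncomputable def Ct (π : CuspidalL m) (t : ℝ) : ℝ := π.N * ∏ j, (1 + ‖(t : ℂ) * I - π.μ j‖)

/-- `ξ_π(s) = N^(s/2) Λ(s, π)`. -/
noncomputable def xi (π : CuspidalL m) (s : ℂ) : ℂ := (π.N : ℂ) ^ (s / 2) * π.Λ s

/-- The shifted sum `F(s + a) + w F(s - a)`. -/
noncomputable def shiftSum (a : ℝ) (w : ℂ) (F : ℂ → ℂ) (s : ℂ) : ℂ := F (s + (a : ℂ)) + w * F (s - (a : ℂ))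

/-- The Grand Lindelöf Hypothesis for the `π` in `P`. -/
def GLH (P : CuspidalL m → Prop) : Prop :=
  ∀ ε : ℝ, 0 < ε → ∃ B : ℝ, ∀ π : CuspidalL m, P π → ∀ t : ℝ,
    ‖L π (1 / 2 + (t : ℂ) * I)‖ ≤ B * ((1 + |t|) * C π) ^ ε

/-- The Lindelöf bound `L(1/2 + r + i t, π) ≪ C_π(t)^ε` for every `ε > 0`, uniformly in `π ∈ P` and `t`. -/
def LindelofOn (P : CuspidalL m → Prop) (r : ℝ) : Prop :=
  ∀ ε : ℝ, 0 < ε → ∃ B : ℝ, ∀ π : CuspidalL m, P π → ∀ t : ℝ,
    ‖L π (1 / 2 + (r : ℂ) + (t : ℂ) * I)‖ ≤ B * Ct π t ^ ε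

/-- For all positive `δ`, `ε`, all `X`, and `C_π(y)` large: for all `w ∈ A`, any finitely many zeros `z` of
`ξ_π(s + a) + w ξ_π(s - a)` with `|Im z - y| ≤ 1` and `1/2 + δ ≤ Re z ≤ X` have total multiplicity at most
`ε log C_π(y)`. -/
def FewZeros (P : CuspidalL m → Prop) (a : ℝ) (A : Set ℂ) : Prop :=
  ∀ δ ε X : ℝ, 0 < δ → 0 < ε → ∃ C₀ : ℝ, ∀ π : CuspidalL m, P π → ∀ w ∈ A, ∀ y : ℝ, C₀ ≤ Ct π y →
    ∀ S : Finset ℂ,
    (∀ z ∈ S, shiftSum a w (xi π) z = 0 ∧ 1 / 2 + δ ≤ z.re ∧ z.re ≤ X ∧ |z.im - y| ≤ 1) →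
    ∑ z ∈ S, (analyticOrderNatAt (shiftSum a w (xi π)) z : ℝ) ≤ ε * Real.log (Ct π y)

open Pool.Agent.W169.HF Pool.Agent.Q27.SZ

lemma std (π : CuspidalL m) : Std π.N π.μ π.α π.ε π.Λ :=
  ⟨{ one_le := π.one_le
     re_le := π.re_le
     norm_le := fun j p hp => by
       rw [← Real.sqrt_eq_rpow]
       exact π.norm_le j p hp
     norm_eq := π.norm_eq
     entire := π.entire
     euler := fun s hs => π.euler s (by linarith)
     fe := π.fe
     bdd := π.bdd }, π.ne_zero⟩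

/-- the class of tuples -/
def cls (P : CuspidalL m → Prop) : Cls m := fun N μ α e Λ =>
  ∃ π : CuspidalL m, P π ∧ π.N = N ∧ π.μ = μ ∧ π.α = α ∧ π.ε = e ∧ π.Λ = Λ

lemma rpow_exp {x : ℝ} (hx : 1 ≤ x) (a : ℝ) : x ^ a = Real.exp (a * Real.log x) := by
  rw [Real.rpow_def_of_pos (by linarith), mul_comm]

lemma C_one (π : CuspidalL m) (t : ℝ) : 1 ≤ (1 + |t|) * C π := by
  have h1 : 1 ≤ ∏ j, (1 + ‖π.μ j‖) := by
    refine Finset.prod_induction _ (fun x => (1 : ℝ) ≤ x) (fun a b ha hb => ?_) le_rfl fun j _ => ?_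
    · nlinarith
    · linarith [norm_nonneg (π.μ j)]
  have h2 : 1 ≤ C π := by
    unfold C
    have := π.one_le
    nlinarith
  have := abs_nonneg t
  nlinarith

lemma lin_iff (P : CuspidalL m → Prop) (r : ℝ) : LindelofOn P r ↔ SEr (cls P) r 0 := by
  constructor
  · intro h ε hε
    obtain ⟨B, HB⟩ := h ε hε
    refine ⟨Real.log (max B 1), ?_⟩
    rintro N μ α e Λ ⟨π, hP, rfl, rfl, rfl, rfl, rfl⟩ _ y
    have hB : 0 < max B 1 := lt_max_of_lt_right one_pos
    refine (HB π hP y).trans ?_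
    have h1 : 1 ≤ cnd π.N π.μ y := cnd_pos π.one_le π.μ y
    change B * cnd π.N π.μ y ^ ε ≤ _
    rw [rpow_exp h1, Real.exp_add, Real.exp_log hB, zero_add]
    exact mul_le_mul_of_nonneg_right (le_max_left _ _) (Real.exp_pos _).le
  · intro h ε hε
    obtain ⟨B, HB⟩ := h ε hε
    refine ⟨Real.exp B, fun π hP t => ?_⟩
    have h2 := HB π.N π.μ π.α π.ε π.Λ ⟨π, hP, rfl, rfl, rfl, rfl, rfl⟩ (std π) t
    have h1 : 1 ≤ cnd π.N π.μ t := cnd_pos π.one_le π.μ t
    change _ ≤ Real.exp B * cnd π.N π.μ t ^ ε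
    rw [rpow_exp h1, ← Real.exp_add]
    rw [zero_add] at h2
    exact h2

lemma few_iff (P : CuspidalL m → Prop) (a : ℝ) (A : Set ℂ) : FewZeros P a A ↔ FS (cls P) a A := by
  constructor
  · intro h δ ε X hδ hε
    obtain ⟨C0, H⟩ := h δ ε X hδ hε
    refine ⟨C0, ?_⟩
    rintro N μ α e Λ ⟨π, hP, rfl, rfl, rfl, rfl, rfl⟩ _ w hw y hC S hS
    exact H π hP w hw y hC S fun z hz => ⟨(hS z hz).1, (hS z hz).2.1.1, (hS z hz).2.1.2, (hS z hz).2.2⟩
  · intro h δ ε X hδ hε
    obtain ⟨C0, H⟩ := h δ ε X hδ hε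
    refine ⟨C0, fun π hP w hw y hC S hS => ?_⟩
    exact H π.N π.μ π.α π.ε π.Λ ⟨π, hP, rfl, rfl, rfl, rfl, rfl⟩ (std π) w hw y hC S
      fun z hz => ⟨(hS z hz).1, ⟨(hS z hz).2.1, (hS z hz).2.2.1⟩, (hS z hz).2.2.2⟩

lemma glh_to (hm : 1 ≤ m) (P : CuspidalL m → Prop) : GLH P ↔ SE (cls P) 0 := by
  have hm' : (1 : ℝ) ≤ m := by exact_mod_cast hm
  constructor
  · intro h ε hε
    obtain ⟨B, HB⟩ := h (ε / (m + 2)) (by positivity)
    refine ⟨Real.log (max B 1), ?_⟩
    rintro N μ α e Λ ⟨π, hP, rfl, rfl, rfl, rfl, rfl⟩ _ y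
    have hB : 0 < max B 1 := lt_max_of_lt_right one_pos
    refine (HB π hP y).trans ?_
    rw [rpow_exp (C_one π y), Real.exp_add, Real.exp_log hB]
    refine mul_le_mul (le_max_left _ _) (Real.exp_le_exp.2 ?_) (Real.exp_pos _).le hB.le
    have h1 := (cnd_norm π.one_le π.μ hm π.normalised y).1
    change Real.log ((1 + |y|) * C π) ≤ _ at h1
    rw [div_mul_eq_mul_div, div_le_iff₀ (by positivity), zero_add]
    have h2 := mul_le_mul_of_nonneg_left h1 hε.le
    linarith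
  · intro h ε hε
    obtain ⟨B, HB⟩ := h (ε / m) (by positivity)
    refine ⟨Real.exp B, fun π hP t => ?_⟩
    have h2 := HB π.N π.μ π.α π.ε π.Λ ⟨π, hP, rfl, rfl, rfl, rfl, rfl⟩ (std π) t
    refine h2.trans ?_
    rw [rpow_exp (C_one π t), ← Real.exp_add]
    apply Real.exp_le_exp.2
    have h1 := (cnd_norm π.one_le π.μ hm π.normalised t).2
    change _ ≤ (m : ℝ) * Real.log ((1 + |t|) * C π) at h1
    have h3 : (0 + ε / m) * Real.log (cnd π.N π.μ t) ≤ ε * Real.log ((1 + |t|) * C π) := by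
      rw [zero_add, div_mul_eq_mul_div, div_le_iff₀ (by positivity)]
      have h4 := mul_le_mul_of_nonneg_left h1 hε.le
      linarith
    linarith

/-- **Main theorem.** Let `m ≥ 1` and let `P` be a set of `π`.  (1) For `0 < a < 1/2` and two different
numbers `w₁`, `w₂` of modulus one: the Lindelöf bound for `P` on all lines `Re s = 1/2 + r`,
`a < r ≤ 1/2`, is equivalent to few zeros off the critical line of `ξ(s + a) + w ξ(s - a)` for all `w` of
modulus one, and to few such zeros for `w = w₁` and `w = w₂`.  (2) The Grand Lindelöf Hypothesis for `P`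
is equivalent to few zeros off the critical line of `ξ(s + a) + ξ(s - a)` and of
`ξ(s + a) - ξ(s - a)` for every `0 < a < 1/2`. -/
theorem result (hm : 1 ≤ m) (P : CuspidalL m → Prop) :
    (∀ (a : ℝ) (w₁ w₂ : ℂ), 0 < a → a < 1 / 2 → ‖w₁‖ = 1 → ‖w₂‖ = 1 → w₁ ≠ w₂ →
      List.TFAE [∀ r : ℝ, a < r → r ≤ 1 / 2 → LindelofOn P r,
        FewZeros P a {w : ℂ | ‖w‖ = 1}, FewZeros P a {w₁, w₂}]) ∧
    (GLH P ↔ ∀ a : ℝ, 0 < a → a < 1 / 2 → FewZeros P a {1, -1}) := by
  constructor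
  · intro a w₁ w₂ ha ha1 hw₁ hw₂ hne
    simp only [few_iff, lin_iff]
    exact Pool.Agent.Q27.SZ.main hm ha ha1 hw₁ hw₂ hne
  · rw [glh_to hm, main_glh hm]
    simp only [few_iff]

end Pool.Agent.Results.MP_52e316_nt.ShiftedSumZeros
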